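import Pool.Agent.Helper29K.Few
import Pool.Agent.Y405.CQ.MER

/-!
# For almost all pairs there is a set of small primes for which the pair is not bad
-/

set_option autoImplicit false
set_option linter.all false

open Finset Filter
open scoped Classical

namespace Pool.Agent.Helper29K

open Pool.Agent.N922.PQ

/-- There is a set of primes of the type, with product at most `D`, for which the pair is not bad. -/
def GoodAt (κ D X : ℕ) (p : ℤ × ℤ) : Prop :=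
  ∃ S : Finset ℕ, Pr8 S ∧ (∀ Q ∈ S, (Q : ℤ) ∣ p.2 ∧ NR Q p.1) ∧ ∏ Q ∈ S, Q ≤ D ∧
    ¬ LBad κ X (zS S) (fun _ => p.1) p.1 p.2

/-- The primes up to `Y` which are `1` modulo `8`. -/
noncomputable def QY (Y : ℕ) : Finset ℕ := (Icc 1 Y).filter fun p => p.Prime ∧ p % 8 = 1

theorem qy_pr8 (Y : ℕ) : Pr8 (QY Y) := fun Q hQ => (Finset.mem_filter.1 hQ).2

/-- The sum of the reciprocals. -/
noncomputable def lam (Y : ℕ) : ℝ := ∑ Q ∈ QY Y, (1 : ℝ) / Q

theorem lam_nonneg (Y : ℕ) : 0 ≤ lam Y := Finset.sum_nonneg fun Q _ => by positivity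

theorem lam_two : lam 2 = 0 := by
  unfold lam QY
  apply Finset.sum_eq_zero
  intro p hp
  rw [Finset.mem_filter, mem_Icc] at hp
  obtain ⟨⟨h1, h2⟩, h3, h4⟩ := hp
  have h5 := h3.two_le
  omega

theorem lam_bd : ∃ C : ℝ, 0 ≤ C ∧ ∀ Y : ℕ, 2 ≤ Y →
    1 / 4 * Real.log (Real.log Y) - C ≤ lam Y ∧ lam Y ≤ Real.log Y + C := by
  obtain ⟨C, hC0, hC⟩ := Pool.Agent.Y405.CQ.mertens_ap 8 (by norm_num) 1 (by norm_num) (by norm_num)
  refine ⟨C, hC0, fun Y hY => ?_⟩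
  have htot : ((Nat.totient 8 : ℕ) : ℝ) = 4 := by
    have : Nat.totient 8 = 4 := by decide
    rw [this]
    norm_num
  rcases hY.lt_or_eq with h | h
  · have h1 := abs_le.1 (hC Y h)
    rw [htot] at h1
    have h2 : lam Y = ∑ p ∈ (Icc 1 Y).filter (fun p => p.Prime ∧ p % 8 = 1), (1 : ℝ) / p := rfl
    rw [← h2] at h1
    have h3 : 0 < Real.log Y := Real.log_pos (by exact_mod_cast (by omega : 1 < Y))
    have h4 : Real.log (Real.log Y) ≤ Real.log Y := by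
      have := Real.log_le_sub_one_of_pos h3
      linarith
    constructor
    · linarith [h1.1]
    · linarith [h1.2]
  · subst h
    rw [lam_two]
    have h3 : 0 < Real.log ((2 : ℕ) : ℝ) := Real.log_pos (by norm_num)
    have h4 : Real.log (Real.log ((2 : ℕ) : ℝ)) ≤ 0 := by
      apply Real.log_nonpos h3.le
      have := Real.log_le_sub_one_of_pos (show (0 : ℝ) < ((2 : ℕ) : ℝ) by norm_num)
      push_cast at this ⊢
      linarith
    generalize Real.log (Real.log ((2 : ℕ) : ℝ)) = x at h4 ⊢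
    generalize Real.log ((2 : ℕ) : ℝ) = y at h3 ⊢
    constructor
    · linarith
    · linarith

theorem sum_sq_le (Y : ℕ) : ∑ Q ∈ QY Y, (1 : ℝ) / (Q : ℝ) ^ 2 ≤ 2 := by
  have h1 : ∑ Q ∈ QY Y, (1 : ℝ) / (Q : ℝ) ^ 2 ≤ ∑ Q ∈ Icc 1 Y, (1 : ℝ) / (Q : ℝ) ^ 2 :=
    Finset.sum_le_sum_of_subset_of_nonneg (Finset.filter_subset _ _) fun Q _ _ => by positivity
  refine h1.trans ?_
  have h2 : ∀ Y : ℕ, 1 ≤ Y → ∑ Q ∈ Icc 1 Y, (1 : ℝ) / (Q : ℝ) ^ 2 ≤ 2 - 1 / Y := by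
    intro Y hY
    induction Y, hY using Nat.le_induction with
    | base => norm_num
    | succ n hn ih =>
      rw [Finset.sum_Icc_succ_top (by omega)]
      have hn' : (0 : ℝ) < n := by exact_mod_cast hn
      have h3 : (1 : ℝ) / ((n + 1 : ℕ) : ℝ) ^ 2 ≤ 1 / n - 1 / ((n + 1 : ℕ) : ℝ) := by
        push_cast
        rw [div_sub_div _ _ hn'.ne' (by positivity), div_le_div_iff₀ (by positivity) (by positivity)]
        nlinarith
      linarith
  rcases Nat.eq_zero_or_pos Y with h | h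
  · subst h
    norm_num
  · have := h2 Y h
    have h3 : (0 : ℝ) ≤ 1 / Y := by positivity
    linarith

/-- The first estimate. -/
theorem est1 (Y X : ℕ) (hX : ∏ Q ∈ QY Y, Q ≤ X) :
    (((Bx X).filter fun p => (SE (QY Y) p.1 p.2).card < ⌊2 / 5 * lam Y⌋₊).card : ℝ) ≤
      16 * (X : ℝ) ^ 5 * Real.exp (-(1 / 250) * lam Y) := by
  have h := few1 (qy_pr8 Y) (u := 4 / 5) (by norm_num) (by norm_num) ⌊2 / 5 * lam Y⌋₊ hX
  have hl := lam_nonneg Y
  have hs : ((⌊2 / 5 * lam Y⌋₊ : ℕ) : ℝ) ≤ 2 / 5 * lam Y := Nat.floor_le (by linarith)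
  -- the product
  have h1 : ∏ Q ∈ QY Y, (1 - (1 - (4 / 5 : ℝ)) * (((Q : ℝ) - 1) / (2 * (Q : ℝ) ^ 2))) ≤
      Real.exp (-(1 / 10) * lam Y + 1 / 5) := by
    have h2 : ∀ Q ∈ QY Y, (1 - (1 - (4 / 5 : ℝ)) * (((Q : ℝ) - 1) / (2 * (Q : ℝ) ^ 2))) ≤
        Real.exp (-(1 / 10) * (1 / (Q : ℝ)) + 1 / 10 * (1 / (Q : ℝ) ^ 2)) := by
      intro Q hQ
      have hQ0 : (0 : ℝ) < Q := by exact_mod_cast (qy_pr8 Y Q hQ).1.pos
      have h3 := Real.add_one_le_exp (-(1 / 10) * (1 / (Q : ℝ)) + 1 / 10 * (1 / (Q : ℝ) ^ 2))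
      refine le_trans (le_of_eq ?_) h3
      field_simp
      ring
    have h4 : ∀ Q ∈ QY Y, 0 ≤ (1 - (1 - (4 / 5 : ℝ)) * (((Q : ℝ) - 1) / (2 * (Q : ℝ) ^ 2))) := by
      intro Q hQ
      have hQ1 : (1 : ℝ) ≤ Q := by exact_mod_cast (qy_pr8 Y Q hQ).1.one_lt.le
      have h5 : ((Q : ℝ) - 1) / (2 * (Q : ℝ) ^ 2) ≤ 1 := by
        rw [div_le_one (by positivity)]
        nlinarith
      linarith
    refine (Finset.prod_le_prod h4 h2).trans ?_
    rw [← Real.exp_sum, Real.exp_le_exp, Finset.sum_add_distrib, ← Finset.mul_sum,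
      ← Finset.mul_sum]
    have h6 := sum_sq_le Y
    unfold lam
    linarith
  -- the power
  have h5 : (4 / 5 : ℝ) ^ ⌊2 / 5 * lam Y⌋₊ ≥ Real.exp (-(12 / 125) * lam Y) := by
    have h6 : Real.exp (-(6 / 25 : ℝ)) ≤ 4 / 5 := by
      have h7 := Real.quadratic_le_exp_of_nonneg (show (0 : ℝ) ≤ 6 / 25 by norm_num)
      rw [Real.exp_neg, inv_le_comm₀ (Real.exp_pos _) (by norm_num)]
      refine le_trans ?_ h7
      norm_num
    calc Real.exp (-(12 / 125) * lam Y) ≤ Real.exp (-(6 / 25) * ((⌊2 / 5 * lam Y⌋₊ : ℕ) : ℝ)) := by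
          rw [Real.exp_le_exp]
          linarith
      _ = Real.exp (-(6 / 25 : ℝ)) ^ ⌊2 / 5 * lam Y⌋₊ := by
          rw [← Real.exp_nat_mul]
          congr 1
          ring
      _ ≤ (4 / 5 : ℝ) ^ ⌊2 / 5 * lam Y⌋₊ := pow_le_pow_left₀ (Real.exp_pos _).le h6 _
  have h8 : Real.exp (-(12 / 125) * lam Y) *
      (((Bx X).filter fun p => (SE (QY Y) p.1 p.2).card < ⌊2 / 5 * lam Y⌋₊).card : ℝ) ≤
      8 * (X : ℝ) ^ 5 * Real.exp (-(1 / 10) * lam Y + 1 / 5) := by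
    refine (mul_le_mul_of_nonneg_right h5 (Nat.cast_nonneg _)).trans (h.trans ?_)
    exact mul_le_mul_of_nonneg_left h1 (by positivity)
  have h9 : Real.exp (1 / 5 : ℝ) ≤ 2 := by
    have h10 : (1 / 5 : ℝ) ≤ Real.log 2 := by
      have := Real.log_two_gt_d9
      linarith
    calc Real.exp (1 / 5 : ℝ) ≤ Real.exp (Real.log 2) := Real.exp_le_exp.2 h10
      _ = 2 := Real.exp_log (by norm_num)
  have h11 : 8 * (X : ℝ) ^ 5 * Real.exp (-(1 / 10) * lam Y + 1 / 5) ≤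
      Real.exp (-(12 / 125) * lam Y) * (16 * (X : ℝ) ^ 5 * Real.exp (-(1 / 250) * lam Y)) := by
    have e : -(1 / 10) * lam Y = -(12 / 125) * lam Y + -(1 / 250) * lam Y := by ring
    rw [Real.exp_add, e, Real.exp_add]
    have hpos : 0 ≤ (X : ℝ) ^ 5 * (Real.exp (-(12 / 125) * lam Y) *
      Real.exp (-(1 / 250) * lam Y)) := by positivity
    nlinarith [mul_le_mul_of_nonneg_left h9 hpos]
  exact le_of_mul_le_mul_left (h8.trans h11) (Real.exp_pos _)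

/-- The second estimate. -/
theorem est2 (κ : ℕ) : ∃ K : ℝ, 0 ≤ K ∧ ∀ Y : ℕ, ∀ᶠ X : ℕ in atTop,
    (BB κ X (QY Y) ⌊2 / 5 * lam Y⌋₊).Finite ∧
    ((BB κ X (QY Y) ⌊2 / 5 * lam Y⌋₊).ncard : ℝ) ≤
      K * (X : ℝ) ^ 5 * Real.exp (-(1 / 250) * lam Y) := by
  obtain ⟨K, hK0, hK⟩ := bad2 κ
  refine ⟨2 * K, by positivity, fun Y => ?_⟩
  filter_upwards [hK (QY Y) (qy_pr8 Y) ⌊2 / 5 * lam Y⌋₊] with X hX
  refine ⟨hX.1, ?_⟩
  have hl := lam_nonneg Y
  have h1 : ∏ Q ∈ QY Y, (1 + 1 / (4 * (Q : ℝ))) ≤ Real.exp (1 / 4 * lam Y) := by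
    have h2 : ∀ Q ∈ QY Y, 1 + 1 / (4 * (Q : ℝ)) ≤ Real.exp (1 / 4 * (1 / (Q : ℝ))) := by
      intro Q hQ
      have h3 := Real.add_one_le_exp (1 / 4 * (1 / (Q : ℝ)))
      refine le_trans (le_of_eq ?_) h3
      ring
    refine (Finset.prod_le_prod (fun Q _ => by positivity) h2).trans ?_
    rw [← Real.exp_sum, Real.exp_le_exp, ← Finset.mul_sum]
    exact le_rfl
  have h2 : Real.exp (277 / 1000 * lam Y) ≤ 2 * (2 : ℝ) ^ ⌊2 / 5 * lam Y⌋₊ := by
    have h3 := Nat.lt_floor_add_one (2 / 5 * lam Y)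
    have h4 := Real.log_two_gt_d9
    have e : 2 * (2 : ℝ) ^ ⌊2 / 5 * lam Y⌋₊ =
        Real.exp (Real.log 2 * (((⌊2 / 5 * lam Y⌋₊ : ℕ) : ℝ) + 1)) := by
      have e2 : Real.log 2 * (((⌊2 / 5 * lam Y⌋₊ : ℕ) : ℝ) + 1) =
          ((⌊2 / 5 * lam Y⌋₊ + 1 : ℕ) : ℝ) * Real.log 2 := by
        push_cast
        ring
      rw [e2, Real.exp_nat_mul, Real.exp_log (by norm_num), pow_succ]
      ring
    rw [e, Real.exp_le_exp]
    have h5 : (0.6931471803 : ℝ) * (2 / 5 * lam Y) ≤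
        Real.log 2 * (((⌊2 / 5 * lam Y⌋₊ : ℕ) : ℝ) + 1) :=
      mul_le_mul h4.le h3.le (by linarith) (by linarith)
    refine le_trans ?_ h5
    nlinarith
  have h3 : (2 : ℝ) ^ ⌊2 / 5 * lam Y⌋₊ * ((BB κ X (QY Y) ⌊2 / 5 * lam Y⌋₊).ncard : ℝ) ≤
      K * (X : ℝ) ^ 5 * Real.exp (1 / 4 * lam Y) :=
    hX.2.trans (mul_le_mul_of_nonneg_left h1 (by positivity))
  have h4 : Real.exp (277 / 1000 * lam Y) *
      ((BB κ X (QY Y) ⌊2 / 5 * lam Y⌋₊).ncard : ℝ) ≤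
      2 * (K * (X : ℝ) ^ 5 * Real.exp (1 / 4 * lam Y)) := by
    refine (mul_le_mul_of_nonneg_right h2 (Nat.cast_nonneg _)).trans ?_
    rw [mul_assoc]
    exact mul_le_mul_of_nonneg_left h3 (by norm_num)
  have h5 : 2 * (K * (X : ℝ) ^ 5 * Real.exp (1 / 4 * lam Y)) ≤
      Real.exp (277 / 1000 * lam Y) * (2 * K * (X : ℝ) ^ 5 * Real.exp (-(1 / 250) * lam Y)) := by
    have h6 : Real.exp (1 / 4 * lam Y) ≤ Real.exp (277 / 1000 * lam Y) *
        Real.exp (-(1 / 250) * lam Y) := by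
      rw [← Real.exp_add, Real.exp_le_exp]
      nlinarith
    calc 2 * (K * (X : ℝ) ^ 5 * Real.exp (1 / 4 * lam Y))
        ≤ 2 * (K * (X : ℝ) ^ 5 * (Real.exp (277 / 1000 * lam Y) *
          Real.exp (-(1 / 250) * lam Y))) := by gcongr
      _ = _ := by ring
  exact le_of_mul_le_mul_left (h4.trans h5) (Real.exp_pos _)

/-- **For almost all pairs there is a set of primes for which the pair is not bad.** -/
theorem mc (κ : ℕ) : ∃ C : ℝ, 0 < C ∧ ∀ D : ℕ, 3 ≤ D → ∀ᶠ X : ℕ in atTop,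
    {p : ℤ × ℤ | p ∈ Bx X ∧ ¬ GoodAt κ D X p}.Finite ∧
    ({p : ℤ × ℤ | p ∈ Bx X ∧ ¬ GoodAt κ D X p}.ncard : ℝ) ≤
      C * Real.log D ^ (-(1 / 3000 : ℝ)) * (X : ℝ) ^ 5 := by
  obtain ⟨K, hK0, hK⟩ := est2 κ
  obtain ⟨C₁, hC₁, hlam⟩ := lam_bd
  refine ⟨(16 + K) * Real.exp (1 / 250 * (C₁ + 1)) + 4 * (1 + C₁), by positivity,
    fun D hD => ?_⟩
  have hD3 : (3 : ℝ) ≤ D := by exact_mod_cast hD
  have hl1 : 1 < Real.log D := by
    have h1 : Real.exp 1 < D := by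
      have := Real.exp_one_lt_d9
      linarith
    have h2 := Real.log_lt_log (Real.exp_pos 1) h1
    rwa [Real.log_exp] at h2
  have hl0 : 0 < Real.log D := by linarith
  obtain ⟨t, ht⟩ : ∃ t : ℝ, t = Real.log D ^ (1 / 3 : ℝ) := ⟨_, rfl⟩
  have ht1 : 1 < t := by
    rw [ht]
    exact Real.one_lt_rpow hl1 (by norm_num)
  have ht3 : t ^ 3 = Real.log D := by
    rw [ht, ← Real.rpow_natCast, ← Real.rpow_mul hl0.le]
    norm_num
  obtain ⟨Y, hY⟩ : ∃ Y : ℕ, Y = ⌊Real.exp t⌋₊ := ⟨_, rfl⟩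
  have he2 : 2 < Real.exp t := by
    have h1 := Real.add_one_lt_exp (show t ≠ 0 by linarith)
    linarith
  have hY2 : 2 ≤ Y := by
    rw [hY]
    exact Nat.le_floor (by exact_mod_cast he2.le)
  have hYle : (Y : ℝ) ≤ Real.exp t := by
    rw [hY]
    exact Nat.floor_le (Real.exp_pos _).le
  have hYge : Real.exp t / 2 ≤ Y := by
    have h1 := Nat.lt_floor_add_one (Real.exp t)
    rw [← hY] at h1
    linarith
  have hY0 : (0 : ℝ) < Y := by positivity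
  have hlogY : Real.log Y ≤ t := by
    have := Real.log_le_log hY0 hYle
    rwa [Real.log_exp] at this
  have hlogY' : t / 4 ≤ Real.log Y := by
    have h1 := Real.log_le_log (by positivity) hYge
    rw [Real.log_div (Real.exp_pos _).ne' (by norm_num), Real.log_exp] at h1
    have h2 := Real.log_two_lt_d9
    linarith
  obtain ⟨hlam1, hlam2⟩ := hlam Y hY2
  -- lower bound for `lam`
  have hlow : 1 / 12 * Real.log (Real.log D) - (C₁ + 1) ≤ lam Y := by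
    have h1 : Real.log (t / 4) ≤ Real.log (Real.log Y) := Real.log_le_log (by positivity) hlogY'
    have h2 : Real.log (t / 4) = 1 / 3 * Real.log (Real.log D) - Real.log 4 := by
      rw [Real.log_div (by positivity) (by norm_num), ht, Real.log_rpow hl0]
    have h3 : Real.log 4 ≤ 4 := by
      have := Real.log_le_sub_one_of_pos (show (0 : ℝ) < 4 by norm_num)
      linarith
    rw [h2] at h1
    linarith
  have hexp : Real.exp (-(1 / 250) * lam Y) ≤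
      Real.exp (1 / 250 * (C₁ + 1)) * Real.log D ^ (-(1 / 3000 : ℝ)) := by
    rw [Real.rpow_def_of_pos hl0, ← Real.exp_add, Real.exp_le_exp]
    linarith
  have hev1 : ∀ᶠ X : ℕ in atTop, (∏ Q ∈ QY Y, Q) ≤ X := eventually_ge_atTop _
  have hev2 : ∀ᶠ X : ℕ in atTop, ∀ Q ∈ QY Y, Q ≤ X := by
    rw [Filter.eventually_all_finset]
    exact fun Q _ => eventually_ge_atTop Q
  filter_upwards [hK Y, hev1, hev2, eventually_ge_atTop 1] with X hX h1 h2 hX1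
  have e1 := est1 Y X h1
  have e2 := hX.2
  have e3 := few3 (qy_pr8 Y) (D := D) (by omega) h2 hX1
  set B1 := (Bx X).filter fun p => (SE (QY Y) p.1 p.2).card < ⌊2 / 5 * lam Y⌋₊ with hB1
  set B2 := BB κ X (QY Y) ⌊2 / 5 * lam Y⌋₊ with hB2
  set B3 := (Bx X).filter fun p => D < ∏ Q ∈ SE (QY Y) p.1 p.2, Q with hB3
  have hsub : {p : ℤ × ℤ | p ∈ Bx X ∧ ¬ GoodAt κ D X p} ⊆ ((B1 : Set (ℤ × ℤ)) ∪ B2) ∪ B3 := by
    rintro p ⟨hp, hng⟩
    by_contra hn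
    rw [Set.mem_union, Set.mem_union, not_or, not_or] at hn
    obtain ⟨⟨n1, n2⟩, n3⟩ := hn
    apply hng
    refine ⟨SE (QY Y) p.1 p.2, (qy_pr8 Y).mono (Finset.filter_subset _ _),
      fun Q hQ => (Finset.mem_filter.1 hQ).2, ?_, fun hb => ?_⟩
    · by_contra h
      exact n3 (Finset.mem_coe.2 (Finset.mem_filter.2 ⟨hp, not_le.1 h⟩))
    · apply n2
      refine ⟨?_, hb⟩
      by_contra h
      exact n1 (Finset.mem_coe.2 (Finset.mem_filter.2 ⟨hp, not_le.1 h⟩))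
  have hfin : (((B1 : Set (ℤ × ℤ)) ∪ B2) ∪ B3).Finite :=
    ((Finset.finite_toSet _).union hX.1).union (Finset.finite_toSet _)
  refine ⟨hfin.subset hsub, ?_⟩
  have hcard : {p : ℤ × ℤ | p ∈ Bx X ∧ ¬ GoodAt κ D X p}.ncard ≤ B1.card + B2.ncard + B3.card := by
    calc _ ≤ (((B1 : Set (ℤ × ℤ)) ∪ B2) ∪ B3).ncard := Set.ncard_le_ncard hsub hfin
      _ ≤ ((B1 : Set (ℤ × ℤ)) ∪ B2).ncard + (B3 : Set (ℤ × ℤ)).ncard := Set.ncard_union_le _ _
      _ ≤ ((B1 : Set (ℤ × ℤ)).ncard + B2.ncard) + (B3 : Set (ℤ × ℤ)).ncard :=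
          Nat.add_le_add_right (Set.ncard_union_le _ _) _
      _ = _ := by rw [Set.ncard_coe_finset, Set.ncard_coe_finset]
  have hcard' : ({p : ℤ × ℤ | p ∈ Bx X ∧ ¬ GoodAt κ D X p}.ncard : ℝ) ≤
      B1.card + B2.ncard + B3.card := by exact_mod_cast hcard
  -- the third set
  have e4 : (B3.card : ℝ) ≤ 4 * (1 + C₁) * (X : ℝ) ^ 5 * (1 / t) := by
    have h5 : ∑ Q ∈ QY Y, Real.log Q / Q ≤ Real.log Y * lam Y := by
      unfold lam
      rw [Finset.mul_sum]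
      refine Finset.sum_le_sum fun Q hQ => ?_
      have hQ1 : (0 : ℝ) < Q := by exact_mod_cast (qy_pr8 Y Q hQ).1.pos
      have hQY : (Q : ℝ) ≤ Y := by
        exact_mod_cast (Finset.mem_Icc.1 (Finset.mem_filter.1 hQ).1).2
      have h6 := Real.log_le_log hQ1 hQY
      rw [mul_one_div]
      exact div_le_div_of_nonneg_right h6 hQ1.le
    have h6 : Real.log Y * lam Y ≤ t * (t + C₁) := by
      refine mul_le_mul hlogY (by linarith) (lam_nonneg Y) (by linarith)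
    have h7 : Real.log D * (B3.card : ℝ) ≤ 4 * (X : ℝ) ^ 5 * (t * (t + C₁)) :=
      e3.trans (mul_le_mul_of_nonneg_left (h5.trans h6) (by positivity))
    rw [← ht3] at h7
    have h8 : 4 * (X : ℝ) ^ 5 * (t * (t + C₁)) ≤ t ^ 3 * (4 * (1 + C₁) * (X : ℝ) ^ 5 * (1 / t)) := by
      have h9 : t ^ 3 * (4 * (1 + C₁) * (X : ℝ) ^ 5 * (1 / t)) =
          4 * (X : ℝ) ^ 5 * ((1 + C₁) * t ^ 2) := by
        field_simp
      rw [h9]
      refine mul_le_mul_of_nonneg_left ?_ (by positivity)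
      have h10 : t ≤ t ^ 2 := by nlinarith
      have h11 : C₁ * t ≤ C₁ * t ^ 2 := mul_le_mul_of_nonneg_left h10 hC₁
      nlinarith
    exact le_of_mul_le_mul_left (h7.trans h8) (by positivity)
  have e5 : 1 / t ≤ Real.log D ^ (-(1 / 3000 : ℝ)) := by
    rw [ht, one_div, ← Real.rpow_neg hl0.le]
    exact Real.rpow_le_rpow_of_exponent_le hl1.le (by norm_num)
  have hX5 : (0 : ℝ) ≤ (X : ℝ) ^ 5 := by positivity
  calc ({p : ℤ × ℤ | p ∈ Bx X ∧ ¬ GoodAt κ D X p}.ncard : ℝ)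
      ≤ B1.card + B2.ncard + B3.card := hcard'
    _ ≤ 16 * (X : ℝ) ^ 5 * (Real.exp (1 / 250 * (C₁ + 1)) * Real.log D ^ (-(1 / 3000 : ℝ))) +
        K * (X : ℝ) ^ 5 * (Real.exp (1 / 250 * (C₁ + 1)) * Real.log D ^ (-(1 / 3000 : ℝ))) +
        4 * (1 + C₁) * (X : ℝ) ^ 5 * Real.log D ^ (-(1 / 3000 : ℝ)) := by
        refine add_le_add (add_le_add (e1.trans ?_) (e2.trans ?_)) (e4.trans ?_)
        · exact mul_le_mul_of_nonneg_left hexp (by positivity)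
        · exact mul_le_mul_of_nonneg_left hexp (by positivity)
        · exact mul_le_mul_of_nonneg_left e5 (by positivity)
    _ = _ := by ring

end Pool.Agent.Helper29K
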