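import Pool.Agent.Helper29K.Gen
import Pool.Agent.H30GS.Main
import Pool.Agent.H30GR.Grow

/-!
# The given field is admissible for the twist by a small product of primes
-/

set_option autoImplicit false
set_option linter.all false

open Finset Filter Polynomial NumberField
open scoped Classical

namespace Pool.Agent.Helper29K

open Pool.Agent.N922.PQ Pool.Agent.H30GR
open Pool.Agent.H30EV (Curves NoZero irr twist Ramified SplitsCompletely isPr_nat nat_isPr unr_iff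
  Unr Res splits_of res_of_gen unr_of_gen GSel Adm Tw coprime_ab)

theorem irr_good {A B P : ℤ} (h : P ∈ irr A B) : ¬ P ∣ 4 * A ^ 3 + 27 * B ^ 2 := by
  intro hd
  obtain ⟨z, hz⟩ := Pool.Agent.N456.PQ.root_of h.1 hd
  exact h.2 z hz

theorem gsel_of {A B : ℤ} (hG : GSelR A B) : GSel A B where
  a4 := hG.a4
  b4 := hG.b4
  sel M _ _ _ n hn hadm d hd := by
    have hd0 : d ≠ 0 := by
      rintro rfl
      rcases hd.two with h | h <;> norm_num at h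
    obtain ⟨R₁, hR₁⟩ : ∃ R₁ : Finset ℕ, R₁ = (ram_fin M).toFinset.filter (fun l : ℕ => ¬ (l : ℤ) ∣ d) :=
      ⟨_, rfl⟩
    obtain ⟨R₂, hR₂⟩ : ∃ R₂ : Finset ℕ, R₂ = d.natAbs.primeFactors.erase 2 := ⟨_, rfl⟩
    have h1 : ∀ l : ℕ, l ∈ R₁ ↔ l.Prime ∧ ¬ Unr M (l : ℤ) ∧ ¬ (l : ℤ) ∣ d := by
      intro l
      rw [hR₁, mem_filter, (ram_fin M).mem_toFinset]
      constructor
      · rintro ⟨⟨h2, h3⟩, h4⟩
        exact ⟨h2, fun h5 => (unr_iff h2).1 h5 h3, h4⟩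
      · rintro ⟨h2, h3, h4⟩
        exact ⟨⟨h2, by rwa [unr_iff h2, not_not] at h3⟩, h4⟩
    have h2 : ∀ l : ℕ, l ∈ R₂ ↔ l.Prime ∧ l ≠ 2 ∧ (l : ℤ) ∣ d := by
      intro l
      rw [hR₂, Finset.mem_erase, Nat.mem_primeFactors, Int.natCast_dvd]
      constructor
      · rintro ⟨h1, h2, h3, -⟩
        exact ⟨h2, h1, h3⟩
      · rintro ⟨h1, h2, h3⟩
        exact ⟨h2, h1, h3, Int.natAbs_ne_zero.2 hd0⟩
    have hz : ∀ l ∈ R₁ ∪ R₂, nz A B l = 0 := by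
      intro l hl
      apply nz_irr
      rcases mem_union.1 hl with h | h
      · obtain ⟨h3, h4, -⟩ := (h1 l).1 h
        by_contra hc
        exact h4 (hadm.ur l (isPr_nat h3) hc)
      · obtain ⟨h3, -, h4⟩ := (h2 l).1 h
        exact hd.ir l (isPr_nat h3) h4
    have h := hG.sel M n hn ⟨hadm.two, fun P hP hu => irr_good (by
        by_contra hc
        exact hu (hadm.ur P hP hc)), hadm.sp⟩ d
      ⟨hd.two, fun P hP hPd => irr_good (hd.ir P hP hPd)⟩ R₁ R₂ h1 h2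
    have hb : bdN A B n R₁ R₂ = 1 := by
      unfold bdN
      rw [Finset.prod_eq_one fun l hl => by rw [hz l (mem_union_right _ hl), add_zero],
        Finset.prod_eq_one fun l hl => by rw [hz l hl, add_zero], one_pow, one_mul]
    rw [hb] at h
    exact Pool.Agent.H30GS.selR_of h

theorem prime_dvd_prod' {J : Finset ℕ} (hJ : ∀ Q ∈ J, Q.Prime) {p : ℕ} (hp : p.Prime)
    (h : p ∣ ∏ Q ∈ J, Q) : p ∈ J := by
  obtain ⟨Q, hQ, hpQ⟩ := (hp.prime.dvd_finsetProd_iff _).1 h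
  rwa [(Nat.prime_dvd_prime_iff_eq hp (hJ Q hQ)).1 hpQ]

/-- The field `K₀` is admissible for the twist. -/
theorem adm_tw {K₀ : Type} [Field K₀] [NumberField K₀] {γ : K₀} {g : ℤ[X]} {δ : ℤ}
    (hG : Gen ℚ γ g δ) {q : ℤ × ℤ} (hF : InFamily q) (hA : Admissible K₀ q)
    {J : Finset ℕ} (hJ : ∀ Q ∈ J, Q ∈ SP g {p : ℕ | (p : ℤ) ∣ δ}) :
    (∀ p : ℕ, p.Prime → p ∣ ∏ Q ∈ J, Q → SplitsCompletely K₀ p) ∧
    Admissible K₀ (q.1 * ((∏ Q ∈ J, Q : ℕ) : ℤ) ^ 2, q.2 * ((∏ Q ∈ J, Q : ℕ) : ℤ) ^ 3) := by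
  haveI := hA.galois
  have hJp : ∀ Q ∈ J, Q.Prime := fun Q hQ => (hJ Q hQ).1
  have hur : ∀ p : ℕ, p.Prime → p ∣ ∏ Q ∈ J, Q → Unr K₀ (p : ℤ) ∧ Res K₀ (p : ℤ) := by
    intro p hp hpd
    have h1 := hJ p (prime_dvd_prod' hJp hp hpd)
    exact ⟨unr_of_gen hG (isPr_nat hp) h1.2.2.2, res_of_gen hG (isPr_nat hp) h1.2.2.2 h1.2.2.1⟩
  obtain ⟨d, hd⟩ : ∃ d : ℕ, d = ∏ Q ∈ J, Q := ⟨_, rfl⟩
  rw [← hd] at hur ⊢
  have hspl : ∀ p : ℕ, p.Prime → p ∣ d → SplitsCompletely K₀ p := fun p hp hpd =>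
    splits_of hp (hur p hp hpd).1 (hur p hp hpd).2
  refine ⟨hspl, hA.galois, hA.degree, hA.two, fun p hp hr h => ?_, fun p hp hp2 h1 h2 => ?_⟩
  · have h' : (p : ℤ) ∣ 4 * (q.1 * (d : ℤ) ^ 2) ^ 3 + 27 * (q.2 * (d : ℤ) ^ 3) ^ 2 := h
    have e : 4 * (q.1 * (d : ℤ) ^ 2) ^ 3 + 27 * (q.2 * (d : ℤ) ^ 3) ^ 2 =
        (d : ℤ) ^ 6 * (4 * q.1 ^ 3 + 27 * q.2 ^ 2) := by ring
    rw [e] at h'
    have hpp := Nat.prime_iff_prime_int.1 hp
    rcases hpp.dvd_or_dvd h' with h3 | h3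
    · have h4 : p ∣ d := by exact_mod_cast hpp.dvd_of_dvd_pow h3
      exact (unr_iff hp).1 (hur p hp h4).1 hr
    · exact hA.good p hp hr h3
  · have hpp := Nat.prime_iff_prime_int.1 hp
    have h1' : (p : ℤ) ∣ q.1 * (d : ℤ) ^ 2 := h1
    have h2' : (p : ℤ) ∣ q.2 * (d : ℤ) ^ 3 := h2
    apply hspl p hp
    by_contra hpd
    have hnd : ¬ (p : ℤ) ∣ (d : ℤ) := fun h => hpd (by exact_mod_cast h)
    have h3 : (p : ℤ) ∣ q.1 := by
      rcases hpp.dvd_or_dvd h1' with h | h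
      · exact h
      · exact absurd (hpp.dvd_of_dvd_pow h) hnd
    have h4 : (p : ℤ) ∣ q.2 := by
      rcases hpp.dvd_or_dvd h2' with h | h
      · exact h
      · exact absurd (hpp.dvd_of_dvd_pow h) hnd
    exact coprime_ab hF.sqfree (isPr_nat hp) h3 h4

/-- For a curve of the family the field `K` is admissible if the ramified primes are good. -/
theorem adm_fam {K₀ : Type} [Field K₀] [NumberField K₀] (hgal : IsGalois ℚ K₀)
    (hdeg : ∃ n : ℕ, Module.finrank ℚ K₀ = 2 ^ n) (htwo : ¬ Ramified K₀ 2) {q : ℤ × ℤ}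
    (hF : InFamily q)
    (hg : ∀ p : ℕ, p.Prime → Ramified K₀ p → ¬ (p : ℤ) ∣ 4 * q.1 ^ 3 + 27 * q.2 ^ 2) :
    Admissible K₀ q :=
  ⟨hgal, hdeg, htwo, hg, fun p hp _ h1 h2 => (coprime_ab hF.sqfree (isPr_nat hp) h1 h2).elim⟩

end Pool.Agent.Helper29K
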