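import Pool.Agent.N40.PQ.Spl
import Pool.Agent.TH888.B1.Roots

/-!
# The sum of `1 / p` over the primes `p ≡ 1` modulo `8` which split in a given field diverges
-/

set_option autoImplicit false
set_option linter.all false

open Finset Filter Polynomial
open scoped Classical

namespace Pool.Agent.Helper29K

open Pool.Agent.N922.PQ Pool.Agent.N40.PQ Pool.Agent.TH888.B1

/-- The primes `1` modulo `8`, outside `T`, modulo which `g` splits. -/
def SP (g : ℤ[X]) (T : Set ℕ) : Set ℕ :=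
  {p : ℕ | p.Prime ∧ p % 8 = 1 ∧ SplitMod (p : ℤ) g ∧ p ∉ T}

theorem spl_div (M : Type) [Field M] [NumberField M] (γ : M) (g : ℤ[X]) (δ : ℤ)
    (hG : Gen ℚ γ g δ) (T : Set ℕ) (hT : T.Finite) :
    ¬ Summable (fun n : ℕ => (SP g T).indicator (fun n : ℕ => (1 : ℝ) / n) n) := by
  -- the splitting field
  set f : ℤ[X] := g * (X ^ 4 + 1) with hf
  have h41 : (X ^ 4 + 1 : ℤ[X]).Monic := by monicity!
  have hfm : f.Monic := hG.monic.mul h41
  have hNN : NumberField (f.map (algebraMap ℤ ℚ)).SplittingField :=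
    { to_charZero := charZero_of_injective_algebraMap
        (algebraMap ℚ (f.map (algebraMap ℤ ℚ)).SplittingField).injective
      to_finiteDimensional := inferInstance }
  have hfs : (f.map (algebraMap ℤ (f.map (algebraMap ℤ ℚ)).SplittingField)).Splits := by
    have h1 := SplittingField.splits (f.map (algebraMap ℤ ℚ))
    rw [Polynomial.map_map] at h1
    convert h1 using 2
    exact RingHom.ext_int _ _
  obtain ⟨η, G, δ', hGG, hdG⟩ := gen (f.map (algebraMap ℤ ℚ)).SplittingField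
  obtain ⟨Δ, hΔ0, hΔ⟩ := claim1 η G δ' hGG hdG f hfm hfs
  have hg0 : G.natDegree ≠ 0 := by
    rw [hdG]; exact Module.finrank_pos.ne'
  have hgood : ∀ q : ℕ, q.Prime → ¬ (q : ℤ) ∣ 2 * Δ → ∀ c : ℤ, (q : ℤ) ∣ G.eval c →
      SplitMod (q : ℤ) g ∧ q % 8 = 1 := by
    intro q hq hqΔ c hc
    have : Fact q.Prime := ⟨hq⟩
    have h1 := hΔ q hq (fun h => hqΔ (h.mul_left _)) c hc
    rw [hf, Polynomial.map_mul] at h1
    have hne1 : g.map (Int.castRingHom (ZMod q)) ≠ 0 := (hG.monic.map _).ne_zero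
    have hne2 : (X ^ 4 + 1 : ℤ[X]).map (Int.castRingHom (ZMod q)) ≠ 0 := (h41.map _).ne_zero
    rw [splits_mul_iff hne1 hne2] at h1
    refine ⟨splitMod_of_splits q hq g hG.monic h1.1, mod8 hq ?_ h1.2⟩
    rintro rfl
    exact hqΔ (dvd_mul_right _ _)
  have h1 := rootPrimes_diverges G (Nat.pos_of_ne_zero hg0)
  have h2Δ : 2 * Δ ≠ 0 := mul_ne_zero two_ne_zero hΔ0
  have hfin : ({p : ℕ | (p : ℤ) ∣ 2 * Δ} ∪ T).Finite := by
    refine Set.Finite.union ?_ hT
    apply (Set.finite_Icc 0 (2 * Δ).natAbs).subset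
    intro p hp
    have hp' : (p : ℤ) ∣ 2 * Δ := hp
    rw [Int.natCast_dvd] at hp'
    exact ⟨Nat.zero_le _, Nat.le_of_dvd (Int.natAbs_pos.mpr h2Δ) hp'⟩
  refine diverges_mono ?_ (diverges_diff hfin h1)
  rintro p ⟨⟨hp, x, hx⟩, hpn⟩
  have : Fact p.Prime := ⟨hp⟩
  rw [Set.mem_union, not_or] at hpn
  obtain ⟨c, rfl⟩ := ZMod.intCast_surjective x
  have hc : (p : ℤ) ∣ G.eval c := by
    rw [← ZMod.intCast_zmod_eq_zero_iff_dvd]
    have e : (c : ZMod p) = Int.castRingHom (ZMod p) c := rfl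
    rw [e, eval_map, eval₂_at_apply] at hx
    exact hx
  obtain ⟨h3, h4⟩ := hgood p hp hpn.1 c hc
  exact ⟨hp, h4, h3, hpn.2⟩

/-- Finite sets with a large sum of the reciprocals. -/
theorem exists_large {P : Set ℕ}
    (h : ¬ Summable (fun n : ℕ => P.indicator (fun n : ℕ => (1 : ℝ) / n) n)) (L : ℝ) :
    ∃ 𝒬 : Finset ℕ, (∀ Q ∈ 𝒬, Q ∈ P) ∧ L ≤ ∑ Q ∈ 𝒬, (1 : ℝ) / Q := by
  have h0 : ∀ n : ℕ, 0 ≤ P.indicator (fun n : ℕ => (1 : ℝ) / n) n := by
    intro n
    apply Set.indicator_nonneg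
    intro m _
    positivity
  rw [not_summable_iff_tendsto_nat_atTop_of_nonneg h0] at h
  obtain ⟨n, hn⟩ := (h.eventually_ge_atTop L).exists
  refine ⟨(range n).filter (· ∈ P), fun Q hQ => (mem_filter.1 hQ).2, hn.trans (le_of_eq ?_)⟩
  rw [Finset.sum_filter]
  refine Finset.sum_congr rfl fun Q _ => ?_
  rw [Set.indicator_apply]

end Pool.Agent.Helper29K
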