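import Pool.Agent.Helper29K.Resid
import Pool.Agent.N922.PQ.Final

/-!
# Few bad curves with many primes of the type
-/

set_option autoImplicit false
set_option linter.all false

open Finset Filter
open scoped Classical

namespace Pool.Agent.Helper29K

open Pool.Agent.N922.PQ
open Pool.Agent.N874.PP (Tup chA chB gq tau Two)

/-- The set `S` as a set of integers. -/
def zS (S : Finset ℕ) : Finset ℤ := S.map Nat.castEmbedding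

theorem mem_zS {S : Finset ℕ} {Q : ℤ} : Q ∈ zS S ↔ ∃ p ∈ S, (p : ℤ) = Q := by
  simp [zS]

theorem card_zS (S : Finset ℕ) : (zS S).card = S.card := Finset.card_map _

theorem prod_zS (S : Finset ℕ) : ∏ Q ∈ zS S, Q = ((∏ Q ∈ S, Q : ℕ) : ℤ) := by
  simp [zS]

/-- The indicator of `NR Q`. -/
noncomputable def ind (Q : ℕ) (x : ℤ) : ℝ := if NR Q x then 1 else 0

theorem ind_per (Q : ℕ) : Per Q (ind Q) := by
  intro x y h
  unfold ind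
  by_cases h1 : NR Q x
  · rw [if_pos h1, if_pos ((nr_congr h).1 h1)]
  · rw [if_neg h1, if_neg fun h2 => h1 ((nr_congr h).2 h2)]

theorem sum_ind {Q : ℕ} (hQ : Q.Prime) (h2 : Q ≠ 2) : ∑ x ∈ range Q, ind Q x = ((Q : ℝ) - 1) / 2 := by
  have h := card_nr hQ h2
  have e : ∑ x ∈ range Q, ind Q x = (((range Q).filter fun x : ℕ => NR Q (x : ℤ)).card : ℝ) := by
    rw [Finset.card_filter]
    push_cast
    rfl
  rw [e]
  have h3 : ((2 * ((range Q).filter fun x : ℕ => NR Q (x : ℤ)).card + 1 : ℕ) : ℝ) = Q := by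
    rw [h]
  push_cast at h3
  linarith

theorem prod_ind (S : Finset ℕ) (x : ℤ) :
    ∏ Q ∈ S, ind Q x = if ∀ Q ∈ S, NR Q x then 1 else 0 := by
  by_cases h : ∀ Q ∈ S, NR Q x
  · rw [if_pos h]
    exact Finset.prod_eq_one fun Q hQ => if_pos (h Q hQ)
  · rw [if_neg h]
    push Not at h
    obtain ⟨Q, hQ, h1⟩ := h
    exact Finset.prod_eq_zero hQ (if_neg h1)

/-- The classes modulo the product of the primes in `S`. -/
noncomputable def CS (S : Finset ℕ) : Finset ℕ :=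
  (range (∏ Q ∈ S, Q)).filter fun c : ℕ => ∀ Q ∈ S, NR Q (c : ℤ)

theorem card_CS {S : Finset ℕ} (hS : ∀ Q ∈ S, Q.Prime ∧ Q ≠ 2) :
    ((CS S).card : ℝ) = ∏ Q ∈ S, ((Q : ℝ) - 1) / 2 := by
  have h := sum_prod (S := S) (fun Q hQ => (hS Q hQ).1) (g := fun Q x => ind Q x)
    (fun Q _ => ind_per Q)
  rw [Finset.prod_congr rfl fun Q hQ => sum_ind (hS Q hQ).1 (hS Q hQ).2] at h
  rw [← h]
  unfold CS
  rw [Finset.card_filter]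
  push_cast
  refine Finset.sum_congr rfl fun c _ => ?_
  rw [prod_ind]

/-- The primes `Q` in `𝒬` which divide `b` such that `- a` is not a square modulo `Q`. -/
noncomputable def SE (𝒬 : Finset ℕ) (a b : ℤ) : Finset ℕ :=
  𝒬.filter fun Q => (Q : ℤ) ∣ b ∧ NR Q a

/-- The primes are congruent to `1` modulo `8`. -/
def Pr8 (𝒬 : Finset ℕ) : Prop := ∀ Q ∈ 𝒬, Q.Prime ∧ Q % 8 = 1

theorem Pr8.mono {𝒬 S : Finset ℕ} (h : Pr8 𝒬) (hS : S ⊆ 𝒬) : Pr8 S := fun Q hQ => h Q (hS hQ)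

theorem Pr8.ne_two {𝒬 : Finset ℕ} (h : Pr8 𝒬) {Q : ℕ} (hQ : Q ∈ 𝒬) : Q ≠ 2 := by
  rintro rfl
  have := (h 2 hQ).2
  omega

theorem goodS_of {S : Finset ℕ} (hS : Pr8 S) {c : ℤ} (hc : ∀ Q ∈ S, NR Q c) :
    GoodS (zS S) (fun _ => c) := by
  intro Q hQ
  obtain ⟨p, hp, rfl⟩ := mem_zS.1 hQ
  refine ⟨⟨by exact_mod_cast (hS p hp).1.pos, Nat.prime_iff_prime_int.1 (hS p hp).1⟩, ?_, hc p hp⟩
  have := (hS p hp).2
  omega

/-- Subsets and classes. -/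
theorem lbad_mono {κ X : ℕ} {S S' : Finset ℕ} (hS' : S' ⊆ S) {a b c : ℤ}
    (h : LBad κ X (zS S) (fun _ => a) a b) (hc : ∀ Q ∈ S', (Q : ℤ) ∣ a - c) :
    LBad κ X (zS S') (fun _ => c) a b := by
  obtain ⟨m, B, hB, rfl, rfl⟩ := h
  have hsub : ∀ Q ∈ zS S', Q ∈ zS S := by
    intro Q hQ
    obtain ⟨p, hp, rfl⟩ := mem_zS.1 hQ
    exact mem_zS.2 ⟨p, hS' hp, rfl⟩
  refine ⟨m, B, ⟨hB.box, hB.nz, fun Q hQ => hB.tt Q (hsub Q hQ), fun Q hQ => ?_,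
    fun Q hQ => hB.rb Q (hsub Q hQ)⟩, rfl, rfl⟩
  obtain ⟨p, hp, rfl⟩ := mem_zS.1 hQ
  exact hc p hp

/-- The index set. -/
noncomputable def II (𝒬 : Finset ℕ) : Finset (Σ _ : Finset ℕ, ℕ) := 𝒬.powerset.sigma CS

/-- The set of the bad curves of the class `i`. -/
def LL (κ X : ℕ) (i : Σ _ : Finset ℕ, ℕ) : Set (ℤ × ℤ) :=
  {p | LBad κ X (zS i.1) (fun _ => (i.2 : ℤ)) p.1 p.2}

/-- The bad curves with many primes of the type. -/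
def BB (κ X : ℕ) (𝒬 : Finset ℕ) (s : ℕ) : Set (ℤ × ℤ) :=
  {p | s ≤ (SE 𝒬 p.1 p.2).card ∧ LBad κ X (zS (SE 𝒬 p.1 p.2)) (fun _ => p.1) p.1 p.2}

theorem mem_LL {κ X : ℕ} {𝒬 : Finset ℕ} (hQ : Pr8 𝒬) {a b : ℤ}
    (h : LBad κ X (zS (SE 𝒬 a b)) (fun _ => a) a b) {S : Finset ℕ} (hS : S ⊆ SE 𝒬 a b) :
    (⟨S, (a % ((∏ Q ∈ S, Q : ℕ) : ℤ)).toNat⟩ : Σ _ : Finset ℕ, ℕ) ∈ II 𝒬 ∧
    (a, b) ∈ LL κ X ⟨S, (a % ((∏ Q ∈ S, Q : ℕ) : ℤ)).toNat⟩ := by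
  have hSQ : S ⊆ 𝒬 := hS.trans (Finset.filter_subset _ _)
  have hpos : (0 : ℤ) < ((∏ Q ∈ S, Q : ℕ) : ℤ) := by
    have : 0 < ∏ Q ∈ S, Q := Finset.prod_pos fun Q hQ' => (hQ Q (hSQ hQ')).1.pos
    exact_mod_cast this
  have hc : (((a % ((∏ Q ∈ S, Q : ℕ) : ℤ)).toNat : ℕ) : ℤ) = a % ((∏ Q ∈ S, Q : ℕ) : ℤ) :=
    Int.toNat_of_nonneg (Int.emod_nonneg _ hpos.ne')
  have hd : ∀ Q ∈ S, (Q : ℤ) ∣ a - (((a % ((∏ Q ∈ S, Q : ℕ) : ℤ)).toNat : ℕ) : ℤ) := by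
    intro Q hQS
    rw [hc]
    exact (Int.natCast_dvd_natCast.2 (Finset.dvd_prod_of_mem (fun Q : ℕ => Q) hQS)).trans
      (Int.dvd_self_sub_of_emod_eq rfl)
  refine ⟨?_, lbad_mono hS h hd⟩
  unfold II
  rw [Finset.mem_sigma]
  refine ⟨Finset.mem_powerset.2 hSQ, ?_⟩
  unfold CS
  rw [Finset.mem_filter, Finset.mem_range]
  refine ⟨?_, fun Q hQS => ?_⟩
  · have := Int.emod_lt_of_pos a hpos
    show (a % ((∏ Q ∈ S, Q : ℕ) : ℤ)).toNat < ∏ Q ∈ S, Q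
    omega
  · exact (nr_congr (hd Q hQS)).1 (Finset.mem_filter.1 (hS hQS)).2.2

/-- Double counting. -/
theorem double {κ X : ℕ} {𝒬 : Finset ℕ} (hQ : Pr8 𝒬) {s : ℕ}
    (hfin : ∀ i ∈ II 𝒬, (LL κ X i).Finite) :
    (BB κ X 𝒬 s).Finite ∧ 2 ^ s * (BB κ X 𝒬 s).ncard ≤ ∑ i ∈ II 𝒬, (LL κ X i).ncard := by
  have hBf : (BB κ X 𝒬 s).Finite := by
    refine (Set.Finite.biUnion (II 𝒬).finite_toSet hfin).subset ?_
    rintro ⟨a, b⟩ ⟨-, h⟩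
    have := mem_LL hQ h (subset_refl _)
    exact Set.mem_biUnion this.1 this.2
  refine ⟨hBf, ?_⟩
  rw [Set.ncard_eq_toFinset_card _ hBf]
  have h1 : ∀ p ∈ hBf.toFinset, 2 ^ s ≤ ∑ i ∈ II 𝒬, if p ∈ LL κ X i then 1 else 0 := by
    rintro ⟨a, b⟩ hp
    obtain ⟨hs, hb⟩ := hBf.mem_toFinset.1 hp
    rw [← Finset.card_filter]
    calc 2 ^ s ≤ 2 ^ (SE 𝒬 a b).card := Nat.pow_le_pow_right (by norm_num) hs
      _ = (SE 𝒬 a b).powerset.card := (Finset.card_powerset _).symm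
      _ ≤ _ := by
        refine Finset.card_le_card_of_injOn
          (fun S => (⟨S, (a % ((∏ Q ∈ S, Q : ℕ) : ℤ)).toNat⟩ : Σ _ : Finset ℕ, ℕ)) ?_ ?_
        · intro S hS
          have := mem_LL hQ hb (Finset.mem_powerset.1 hS)
          exact Finset.mem_coe.2 (Finset.mem_filter.2 this)
        · intro S _ S' _ h
          exact congrArg Sigma.fst h
  calc 2 ^ s * hBf.toFinset.card = ∑ p ∈ hBf.toFinset, 2 ^ s := by
        rw [Finset.sum_const, smul_eq_mul, mul_comm]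
    _ ≤ ∑ p ∈ hBf.toFinset, ∑ i ∈ II 𝒬, (if p ∈ LL κ X i then 1 else 0) := Finset.sum_le_sum h1
    _ = ∑ i ∈ II 𝒬, ∑ p ∈ hBf.toFinset, (if p ∈ LL κ X i then 1 else 0) := Finset.sum_comm
    _ ≤ ∑ i ∈ II 𝒬, (LL κ X i).ncard := by
        refine Finset.sum_le_sum fun i hi => ?_
        rw [← Finset.card_filter, Set.ncard_eq_toFinset_card _ (hfin i hi)]
        refine Finset.card_le_card fun p hp => ?_
        exact (hfin i hi).mem_toFinset.2 (Finset.mem_filter.1 hp).2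

/-- **Few bad curves with many primes of the type.** -/
theorem bad2 (κ : ℕ) : ∃ K : ℝ, 0 ≤ K ∧ ∀ 𝒬 : Finset ℕ, Pr8 𝒬 → ∀ s : ℕ, ∀ᶠ X : ℕ in atTop,
    (BB κ X 𝒬 s).Finite ∧ (2 : ℝ) ^ s * ((BB κ X 𝒬 s).ncard : ℝ) ≤
      K * (X : ℝ) ^ 5 * ∏ Q ∈ 𝒬, (1 + 1 / (4 * (Q : ℝ))) := by
  obtain ⟨K, hK⟩ := bad κ
  refine ⟨K, Nat.cast_nonneg _, fun 𝒬 hQ s => ?_⟩
  have hgood : ∀ i ∈ II 𝒬, GoodS (zS i.1) (fun _ => (i.2 : ℤ)) := by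
    rintro ⟨S, c⟩ hi
    unfold II at hi
    rw [Finset.mem_sigma, Finset.mem_powerset] at hi
    exact goodS_of (hQ.mono hi.1) (Finset.mem_filter.1 hi.2).2
  have hev : ∀ᶠ X : ℕ in atTop, ∀ i ∈ II 𝒬, (LL κ X i).Finite ∧
      (2 : ℝ) ^ i.1.card * ((∏ Q ∈ i.1, Q : ℕ) : ℝ) ^ 2 * ((LL κ X i).ncard : ℝ) ≤
        K * (X : ℝ) ^ 5 := by
    rw [Filter.eventually_all_finset]
    intro i hi
    obtain ⟨X₀, h⟩ := hK (zS i.1) (fun _ => (i.2 : ℤ)) (hgood i hi)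
    filter_upwards [eventually_ge_atTop X₀] with X hX
    obtain ⟨h1, h2⟩ := h X hX
    refine ⟨h1, ?_⟩
    rw [card_zS, prod_zS] at h2
    have h3 : (((2 ^ i.1.card * ((∏ Q ∈ i.1, Q : ℕ) : ℤ) ^ 2 *
        ((LL κ X i).ncard : ℤ) : ℤ)) : ℝ) ≤ ((K * X ^ 5 : ℤ) : ℝ) := by
      exact_mod_cast h2
    push_cast at h3
    push_cast
    exact h3
  filter_upwards [hev] with X hX
  obtain ⟨h1, h2⟩ := double hQ (s := s) fun i hi => (hX i hi).1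
  refine ⟨h1, ?_⟩
  have h3 : (2 : ℝ) ^ s * ((BB κ X 𝒬 s).ncard : ℝ) ≤ ∑ i ∈ II 𝒬, ((LL κ X i).ncard : ℝ) := by
    exact_mod_cast h2
  refine h3.trans ?_
  have h4 : ∀ i ∈ II 𝒬, ((LL κ X i).ncard : ℝ) ≤
      K * (X : ℝ) ^ 5 / ((2 : ℝ) ^ i.1.card * ((∏ Q ∈ i.1, Q : ℕ) : ℝ) ^ 2) := by
    intro i hi
    have hpos : (0 : ℝ) < ((∏ Q ∈ i.1, Q : ℕ) : ℝ) := by
      unfold II at hi
      rw [Finset.mem_sigma, Finset.mem_powerset] at hi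
      have : 0 < ∏ Q ∈ i.1, Q := Finset.prod_pos fun Q hQ' => (hQ Q (hi.1 hQ')).1.pos
      exact_mod_cast this
    rw [le_div_iff₀ (by positivity)]
    have := (hX i hi).2
    linarith
  refine (Finset.sum_le_sum h4).trans ?_
  unfold II
  rw [Finset.sum_sigma, Finset.prod_one_add, Finset.mul_sum]
  refine Finset.sum_le_sum fun S hS => ?_
  rw [Finset.mem_powerset] at hS
  have hSQ := hQ.mono hS
  show ∑ _c ∈ CS S, K * (X : ℝ) ^ 5 / ((2 : ℝ) ^ S.card * ((∏ Q ∈ S, Q : ℕ) : ℝ) ^ 2) ≤ _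
  rw [Finset.sum_const, nsmul_eq_mul, card_CS fun Q hQS => ⟨(hSQ Q hQS).1, hSQ.ne_two hQS⟩]
  have e1 : ((2 : ℝ) ^ S.card * ((∏ Q ∈ S, Q : ℕ) : ℝ) ^ 2) = ∏ Q ∈ S, (2 * (Q : ℝ) ^ 2) := by
    rw [Finset.prod_mul_distrib, Finset.prod_const, Nat.cast_prod, Finset.prod_pow]
  have e2 : (∏ Q ∈ S, ((Q : ℝ) - 1) / 2) * (K * (X : ℝ) ^ 5 / ((2 : ℝ) ^ S.card *
      ((∏ Q ∈ S, Q : ℕ) : ℝ) ^ 2)) = K * (X : ℝ) ^ 5 *
      ∏ Q ∈ S, (((Q : ℝ) - 1) / 2 / (2 * (Q : ℝ) ^ 2)) := by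
    rw [e1, Finset.prod_div_distrib (f := fun Q : ℕ => ((Q : ℝ) - 1) / 2)]
    ring
  rw [e2]
  refine mul_le_mul_of_nonneg_left ?_ (by positivity)
  refine Finset.prod_le_prod (fun Q hQS => ?_) fun Q hQS => ?_
  · have : (1 : ℝ) ≤ Q := by exact_mod_cast (hSQ Q hQS).1.one_lt.le
    have h5 : (0 : ℝ) ≤ (Q : ℝ) - 1 := by linarith
    positivity
  · have h5 : (0 : ℝ) < Q := by exact_mod_cast (hSQ Q hQS).1.pos
    rw [div_le_div_iff₀ (by positivity) (by positivity)]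
    nlinarith

end Pool.Agent.Helper29K
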