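import Pool.Agent.Helper29K.Main
import Pool.Agent.H30EV.Main
import Pool.Agent.H30EV.Fam3
import Pool.Agent.H30GS.Cnt

/-!
# The family of the curves with squarefree discriminant
-/

set_option autoImplicit false
set_option linter.all false

open Finset Filter
open scoped Classical

namespace Pool.Agent.Helper29K

open Pool.Agent.N922.PQ
open Pool.Agent.H30EV (Curves NoZero curves_fin curves_eq crv_iff curves_pos irr fam3 mem_irr)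

/-- The curve `y ^ 2 = x ^ 3 + A x + B` is in the family if `A > 0`, `A` and `B` are `3` modulo `4`, the cubic
has no zero modulo `3` and `4 A ^ 3 + 27 B ^ 2` is squarefree. -/
structure InFamily (q : ℤ × ℤ) : Prop where
  pos : 0 < q.1
  a_four : q.1 % 4 = 3
  b_four : q.2 % 4 = 3
  three : NoZero q 3
  sqfree : Squarefree (4 * q.1 ^ 3 + 27 * q.2 ^ 2)

theorem isPr_two : IsPr 2 := ⟨by norm_num, Int.prime_two⟩
theorem isPr_three : IsPr 3 := ⟨by norm_num, Int.prime_three⟩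

theorem nz_two {a b : ℤ} (ha : a % 4 = 3) (hb : b % 4 = 3) (z : ℤ) :
    ¬ (2 : ℤ) ∣ z ^ 3 + a * z + b := by
  intro h4
  have hA : a = 2 * (a / 2) + 1 := by omega
  have hB : b = 2 * (b / 2) + 1 := by omega
  rcases Int.even_or_odd z with ⟨k, hk⟩ | ⟨k, hk⟩
  · rw [hk, hA, hB] at h4
    have e : (k + k) ^ 3 + (2 * (a / 2) + 1) * (k + k) + (2 * (b / 2) + 1) =
        2 * (4 * k ^ 3 + (2 * (a / 2) + 1) * k + b / 2) + 1 := by ring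
    rw [e] at h4
    omega
  · rw [hk, hA, hB] at h4
    have e : (2 * k + 1) ^ 3 + (2 * (a / 2) + 1) * (2 * k + 1) + (2 * (b / 2) + 1) =
        2 * (4 * k ^ 3 + 6 * k ^ 2 + 3 * k + (a / 2) * (2 * k + 1) + k + b / 2 + 1) + 1 := by ring
    rw [e] at h4
    omega

theorem goodT_of {q : ℤ × ℤ} (h : InFamily q) :
    GoodT {2, 3} (fun _ => q.1) (fun _ => q.2) := by
  refine ⟨by simp, by simp, fun P hP => ?_⟩
  rw [mem_insert, mem_singleton] at hP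
  rcases hP with rfl | rfl
  · exact ⟨isPr_two, nz_two h.a_four h.b_four⟩
  · exact ⟨isPr_three, fun z => h.three z⟩

theorem fam_of {X : ℕ} {q : ℤ × ℤ} (h : InFamily q) (hq : q ∈ Bx X) {S : Finset ℕ}
    (hS : ∀ Q ∈ S, (Q : ℤ) ∣ q.2) :
    Fam X (zS S) (fun _ => q.1) {2, 3} (fun _ => q.1) (fun _ => q.2) q.1 q.2 := by
  obtain ⟨h1, h2, h3⟩ := mem_Bx.1 hq
  refine ⟨h1, h2, h3, fun Q _ => ?_, fun Q hQ => ?_, fun P _ => ?_, fun P _ => ?_, h.sqfree⟩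
  · rw [sub_self]
    exact dvd_zero _
  · obtain ⟨p, hp, rfl⟩ := mem_zS.1 hQ
    exact hS p hp
  · rw [sub_self]
    exact dvd_zero _
  · rw [sub_self]
    exact dvd_zero _

/-- The twist by a small product of primes. -/
theorem good_twist {κ D X : ℕ} (hLB : LBk κ) {q : ℤ × ℤ} (hF : InFamily q) (hq : q ∈ Bx X)
    (hG : GoodAt κ D X q) : ∃ J : Finset ℕ, Pr8 J ∧ (∀ Q ∈ J, (Q : ℤ) ∣ q.2 ∧ NR Q q.1) ∧
      ∏ Q ∈ J, Q ≤ D ∧
      Pool.Agent.H30GR.GSelR (q.1 * ((∏ Q ∈ J, Q : ℕ) : ℤ) ^ 2) (q.2 * ((∏ Q ∈ J, Q : ℕ) : ℤ) ^ 3) ∧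
      Pool.Agent.H30GS.GSelS (q.1 * ((∏ Q ∈ J, Q : ℕ) : ℤ) ^ 2)
        (q.2 * ((∏ Q ∈ J, Q : ℕ) : ℤ) ^ 3) := by
  obtain ⟨S, hS8, hS, hD, hnb⟩ := hG
  obtain ⟨J', hJ', h1, h2⟩ := Pool.Agent.H30GS.both parts2 Pool.Agent.N849.PQ.int hLB
    (goodS_of hS8 fun Q hQ => (hS Q hQ).2) (fam_of hF hq fun Q hQ => (hS Q hQ).1)
    hF.a_four hF.b_four hnb (goodT_of hF)
  have hJ : J' = zS (S.filter fun Q : ℕ => (Q : ℤ) ∈ J') := by
    ext Q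
    rw [mem_zS]
    constructor
    · intro h
      obtain ⟨p, hp, rfl⟩ := mem_zS.1 (hJ' h)
      exact ⟨p, mem_filter.2 ⟨hp, h⟩, rfl⟩
    · rintro ⟨p, hp, rfl⟩
      exact (mem_filter.1 hp).2
  obtain ⟨J, hJd⟩ : ∃ J : Finset ℕ, J = S.filter fun Q : ℕ => (Q : ℤ) ∈ J' := ⟨_, rfl⟩
  rw [← hJd] at hJ
  have hJS : J ⊆ S := by
    rw [hJd]
    exact filter_subset _ _
  rw [hJ, prod_zS] at h1 h2
  refine ⟨J, hS8.mono hJS, fun Q hQ => hS Q (hJS hQ), le_trans ?_ hD, h1, h2⟩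
  refine Finset.prod_le_prod_of_subset_of_one_le' hJS fun Q hQ _ => (hS8 Q hQ).1.one_lt.le

/-- The number of the curves of the family. -/
theorem fam_low (T₀ : Finset ℤ) (hT₀ : ∀ P ∈ T₀, IsPr P) :
    ∃ (c : ℝ) (X₀ : ℕ), 0 < c ∧ ∀ X : ℕ, X₀ ≤ X → ∀ H : ℕ, 27 * X ^ 6 ≤ H →
      c * (X : ℝ) ^ 5 ≤
        ({q ∈ Curves H | InFamily q ∧ ∀ P ∈ T₀, P ∈ irr q.1 q.2}.ncard : ℝ) := by
  obtain ⟨T, A, B, hTT, hT⟩ := Pool.Agent.N954.PQ.tch T₀ hT₀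
  obtain ⟨c, hc, h⟩ := fam3 T A B hT
  have hS0 : GoodS ∅ (fun _ => 0) := fun Q hQ => absurd hQ (Finset.notMem_empty _)
  obtain ⟨X₀, hX₀⟩ := h ∅ (fun _ => 0) hS0 (Finset.disjoint_empty_left _)
  refine ⟨c, X₀, hc, fun X hX H hH => ?_⟩
  have h1 := hX₀ X hX
  rw [Finset.prod_empty, one_mul] at h1
  refine h1.trans ?_
  have hsub : {p : ℤ × ℤ | Fam X ∅ (fun _ => 0) T A B p.1 p.2 ∧ p.1 % 4 = 3 ∧ p.2 % 4 = 3} ⊆
      {q ∈ Curves H | InFamily q ∧ ∀ P ∈ T₀, P ∈ irr q.1 q.2} := by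
    rintro q ⟨hF, h4, h4'⟩
    refine ⟨(crv_iff H q).1 ?_, ⟨hF.pa, h4, h4', ?_, hF.sq⟩, fun P hP => ?_⟩
    · have h2 := Pool.Agent.N707.PQ.crv X H ∅ T (fun _ => 0) A B q.1 q.2 hS0 hT hF ∅
        (Finset.Subset.refl _) (by
          rw [Finset.prod_empty, mul_one]
          exact_mod_cast hH)
      rw [Finset.prod_empty, one_pow, one_pow, mul_one, mul_one] at h2
      exact h2
    · exact Pool.Agent.N922.PQ.fam_nt hT hF hT.2.1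
    · exact ⟨hT₀ P hP, Pool.Agent.N922.PQ.fam_nt hT hF (hTT hP)⟩
  exact_mod_cast Set.ncard_le_ncard hsub ((curves_fin H).subset fun q hq => hq.1)

/-- From the boxes to the curves ordered by height. -/
theorem transfer {Fm Good : ℤ × ℤ → Prop} {c : ℝ} {X₀ : ℕ} (hc : 0 < c)
    (hpos : ∀ q, Fm q → 0 < q.1)
    (hlow : ∀ X : ℕ, X₀ ≤ X → ∀ H : ℕ, 27 * X ^ 6 ≤ H →
      c * (X : ℝ) ^ 5 ≤ ({q ∈ Curves H | Fm q}.ncard : ℝ)) {η : ℝ} (hη : 0 ≤ η)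
    (Bad : ℕ → Set (ℤ × ℤ)) (hb : ∀ᶠ X : ℕ in atTop, (Bad X).Finite ∧
      ((Bad X).ncard : ℝ) ≤ η * (X : ℝ) ^ 5)
    (h : ∀ X : ℕ, ∀ q, Fm q → q ∈ Bx X → ¬ Good q → q ∈ Bad X) :
    ∀ᶠ H : ℕ in atTop, 0 < {q ∈ Curves H | Fm q}.ncard ∧
      ({q ∈ Curves H | Fm q ∧ ¬ Good q}.ncard : ℝ) ≤
        1024 / c * η * ({q ∈ Curves H | Fm q}.ncard : ℝ) := by
  rw [eventually_atTop] at hb
  obtain ⟨N, hN⟩ := hb
  filter_upwards [eventually_ge_atTop (27 * (X₀ + N + 1) ^ 6)] with H hH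
  obtain ⟨n, hn1, hn2⟩ := Pool.Agent.N607.PQ.exists_X 1 H le_rfl
  rw [mul_one] at hn1 hn2
  have hn : X₀ + N < n := by
    by_contra hcon
    push Not at hcon
    have h2 : (n + 1) ^ 6 ≤ (X₀ + N + 1) ^ 6 := Nat.pow_le_pow_left (by omega) 6
    omega
  have hl := hlow n (by omega) H hn1
  have hnpos : (0 : ℝ) < n := by
    have : 0 < n := by omega
    exact_mod_cast this
  have hl0 : (0 : ℝ) < ({q ∈ Curves H | Fm q}.ncard : ℝ) := lt_of_lt_of_le (by positivity) hl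
  refine ⟨by exact_mod_cast hl0, ?_⟩
  obtain ⟨hf, hB⟩ := hN (2 * (n + 1)) (by omega)
  have hsub : {q ∈ Curves H | Fm q ∧ ¬ Good q} ⊆ Bad (2 * (n + 1)) := by
    rintro q ⟨hq, hF, hG⟩
    refine h _ q hF ?_ hG
    have h3 := Pool.Agent.N607.PQ.crv_sub hn2 ((crv_iff H q).2 hq)
    rw [Finset.mem_coe, Finset.mem_product, Finset.mem_Icc, Finset.mem_Icc, ← abs_le,
      ← abs_le] at h3
    rw [mem_Bx]
    refine ⟨hpos q hF, ?_, ?_⟩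
    · refine (le_abs_self _).trans (h3.1.trans ?_)
      push_cast
      nlinarith [sq_nonneg ((n : ℤ) + 1)]
    · refine h3.2.trans ?_
      push_cast
      have h4 : (0 : ℤ) ≤ ((n : ℤ) + 1) ^ 3 := by positivity
      have e : (2 * ((n : ℤ) + 1)) ^ 3 = 8 * ((n : ℤ) + 1) ^ 3 := by ring
      rw [e]
      omega
  have h4 : ({q ∈ Curves H | Fm q ∧ ¬ Good q}.ncard : ℝ) ≤ ((Bad (2 * (n + 1))).ncard : ℝ) := by
    exact_mod_cast Set.ncard_le_ncard hsub hf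
  have h5 : (((2 * (n + 1) : ℕ)) : ℝ) ≤ 4 * n := by
    have h6 : (1 : ℝ) ≤ n := by
      have : 1 ≤ n := by omega
      exact_mod_cast this
    push_cast
    linarith
  calc ({q ∈ Curves H | Fm q ∧ ¬ Good q}.ncard : ℝ) ≤ η * (((2 * (n + 1) : ℕ)) : ℝ) ^ 5 :=
        h4.trans hB
    _ ≤ η * (4 * (n : ℝ)) ^ 5 := by gcongr
    _ = 1024 / c * η * (c * (n : ℝ) ^ 5) := by
        field_simp
        ring
    _ ≤ 1024 / c * η * ({q ∈ Curves H | Fm q}.ncard : ℝ) := by gcongr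

/-- The family has a positive proportion. -/
theorem fam_prop (T₀ : Finset ℤ) (hT₀ : ∀ P ∈ T₀, IsPr P) :
    ∃ c : ℝ, 0 < c ∧ ∀ᶠ H : ℕ in atTop, c * ((Curves H).ncard : ℝ) ≤
      ({q ∈ Curves H | InFamily q ∧ ∀ P ∈ T₀, P ∈ irr q.1 q.2}.ncard : ℝ) := by
  obtain ⟨c, X₀, hc, h⟩ := fam_low T₀ hT₀
  obtain ⟨c', hc', H₀, h'⟩ := Pool.Agent.N607.PQ.cnt
    (fun q => InFamily q ∧ ∀ P ∈ T₀, P ∈ irr q.1 q.2) 1 X₀ c hc le_rfl (by
      intro X hX H hH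
      rw [mul_one] at hH
      have h1 := h X hX H hH
      have e : {p : ℤ × ℤ | Crv H p.1 p.2 ∧ InFamily p ∧ ∀ P ∈ T₀, P ∈ irr p.1 p.2} =
          {q ∈ Curves H | InFamily q ∧ ∀ P ∈ T₀, P ∈ irr q.1 q.2} := by
        ext q
        rw [Set.mem_setOf_eq, crv_iff]
        rfl
      rw [e]
      exact h1)
  refine ⟨c', hc', ?_⟩
  filter_upwards [eventually_ge_atTop H₀] with H hH
  have h1 := (h' H hH).2
  rw [← curves_eq] at h1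
  have e : {p : ℤ × ℤ | Crv H p.1 p.2 ∧ InFamily p ∧ ∀ P ∈ T₀, P ∈ irr p.1 p.2} =
      {q ∈ Curves H | InFamily q ∧ ∀ P ∈ T₀, P ∈ irr q.1 q.2} := by
    ext q
    rw [Set.mem_setOf_eq, crv_iff]
    rfl
  rw [e] at h1
  exact h1

end Pool.Agent.Helper29K
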