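import Pool.Agent.Helper29K.Bad

/-!
# Few pairs with few primes of the type, or with a large product of the primes of the type
-/

set_option autoImplicit false
set_option linter.all false

open Finset Filter
open scoped Classical

namespace Pool.Agent.Helper29K

theorem sum_Icc_le {N R : ℕ} (hN : 0 < N) (hR : N ≤ R) {F : ℤ → ℝ} (hF : Per N F)
    (h0 : ∀ x, 0 ≤ F x) :
    ∑ x ∈ Icc (-(R : ℤ)) R, F x ≤ (4 * (R : ℝ) / N) * ∑ x ∈ range N, F x := by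
  have hN' : (0 : ℤ) < N := by exact_mod_cast hN
  have h1 := sum_le_blocks (k := 2 * (R / N) + 2) hN hF h0 (s := Icc (-(R : ℤ)) R)
    (J := Icc (-((R / N : ℕ) : ℤ) - 1) ((R / N : ℕ) : ℤ)) (by
      rw [Int.card_Icc]
      omega) (by
      intro x hx
      rw [mem_Icc] at hx ⊢
      push_cast
      constructor
      · have h2 : (-(R : ℤ)) / N ≤ x / N := Int.ediv_le_ediv hN' hx.1
        have h3 : -((R : ℤ) / N) - 1 ≤ (-(R : ℤ)) / N := by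
          rw [Int.le_ediv_iff_mul_le hN']
          have h4 := Int.lt_ediv_add_one_mul_self (R : ℤ) hN'
          linarith
        exact h3.trans h2
      · exact Int.ediv_le_ediv hN' hx.2)
  refine h1.trans (mul_le_mul_of_nonneg_right ?_ (Finset.sum_nonneg fun x _ => h0 _))
  have hN1 : (0 : ℝ) < N := by exact_mod_cast hN
  have h2 : ((R / N : ℕ) : ℝ) ≤ R / N := Nat.cast_div_le
  have h3 : (1 : ℝ) ≤ R / N := by
    rw [le_div_iff₀ hN1, one_mul]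
    exact_mod_cast hR
  push_cast
  have e : 4 * (R : ℝ) / N = 4 * (R / N) := by ring
  rw [e]
  linarith

theorem sum_Ioc_le {N R : ℕ} (hN : 0 < N) (hR : N ≤ R) {F : ℤ → ℝ} (hF : Per N F)
    (h0 : ∀ x, 0 ≤ F x) :
    ∑ x ∈ Ioc (0 : ℤ) R, F x ≤ (2 * (R : ℝ) / N) * ∑ x ∈ range N, F x := by
  have hN' : (0 : ℤ) < N := by exact_mod_cast hN
  have h1 := sum_le_blocks (k := R / N + 1) hN hF h0 (s := Ioc (0 : ℤ) R)
    (J := Icc 0 ((R / N : ℕ) : ℤ)) (by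
      rw [Int.card_Icc]
      have := Int.natCast_nonneg (R / N)
      omega) (by
      intro x hx
      rw [mem_Ioc] at hx
      rw [mem_Icc]
      push_cast
      exact ⟨Int.ediv_nonneg hx.1.le hN'.le, Int.ediv_le_ediv hN' hx.2⟩)
  refine h1.trans (mul_le_mul_of_nonneg_right ?_ (Finset.sum_nonneg fun x _ => h0 _))
  have hN1 : (0 : ℝ) < N := by exact_mod_cast hN
  have h2 : ((R / N : ℕ) : ℝ) ≤ R / N := Nat.cast_div_le
  have h3 : (1 : ℝ) ≤ R / N := by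
    rw [le_div_iff₀ hN1, one_mul]
    exact_mod_cast hR
  push_cast
  have e : 2 * (R : ℝ) / N = 2 * (R / N) := by ring
  rw [e]
  linarith

/-- The box. -/
noncomputable def Bx (X : ℕ) : Finset (ℤ × ℤ) := Ioc (0 : ℤ) ((X ^ 2 : ℕ) : ℤ) ×ˢ
  Icc (-((X ^ 3 : ℕ) : ℤ)) ((X ^ 3 : ℕ) : ℤ)

theorem mem_Bx {X : ℕ} {p : ℤ × ℤ} : p ∈ Bx X ↔ 0 < p.1 ∧ p.1 ≤ X ^ 2 ∧ |p.2| ≤ X ^ 3 := by
  unfold Bx
  rw [mem_product, mem_Ioc, mem_Icc, abs_le]
  push_cast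
  tauto

/-- The weight. -/
noncomputable def wt (u : ℝ) (Q : ℕ) (a b : ℤ) : ℝ := if (Q : ℤ) ∣ b ∧ NR Q a then u else 1

theorem prod_wt (u : ℝ) (𝒬 : Finset ℕ) (a b : ℤ) :
    ∏ Q ∈ 𝒬, wt u Q a b = u ^ (SE 𝒬 a b).card := by
  unfold wt SE
  rw [Finset.prod_ite, Finset.prod_const, Finset.prod_const_one, mul_one]

theorem wt_nonneg {u : ℝ} (hu : 0 ≤ u) (Q : ℕ) (a b : ℤ) : 0 ≤ wt u Q a b := by
  unfold wt
  split_ifs
  · exact hu
  · exact zero_le_one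

theorem wt_per1 (u : ℝ) (Q : ℕ) (b : ℤ) : Per Q (fun a => wt u Q a b) := by
  intro x y h
  show wt u Q x b = wt u Q y b
  unfold wt
  by_cases h1 : (Q : ℤ) ∣ b ∧ NR Q x
  · rw [if_pos h1, if_pos ⟨h1.1, (nr_congr h).1 h1.2⟩]
  · rw [if_neg h1, if_neg fun h2 => h1 ⟨h2.1, (nr_congr h).2 h2.2⟩]

theorem wt_per2 (u : ℝ) (Q : ℕ) (a : ℤ) : Per Q (fun b => wt u Q a b) := by
  intro x y h
  show wt u Q a x = wt u Q a y
  have h2 : (Q : ℤ) ∣ x ↔ (Q : ℤ) ∣ y := by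
    constructor
    · intro h3
      have := dvd_sub h3 h
      simpa using this
    · intro h3
      have := dvd_add h h3
      simpa using this
  unfold wt
  by_cases h1 : (Q : ℤ) ∣ x ∧ NR Q a
  · rw [if_pos h1, if_pos ⟨h2.1 h1.1, h1.2⟩]
  · rw [if_neg h1, if_neg fun h3 => h1 ⟨h2.2 h3.1, h3.2⟩]

theorem sum_wt (u : ℝ) {Q : ℕ} (hQ : Q.Prime) (h2 : Q ≠ 2) :
    ∑ x ∈ range Q, ∑ y ∈ range Q, wt u Q x y = (Q : ℝ) ^ 2 - (1 - u) * (((Q : ℝ) - 1) / 2) := by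
  have h1 : ∀ x : ℕ, ∑ y ∈ range Q, wt u Q x y = Q - (1 - u) * ind Q x := by
    intro x
    have h3 : ∀ y ∈ range Q, wt u Q x y = 1 - (if y = 0 then (1 - u) * ind Q x else 0) := by
      intro y hy
      have hd : (Q : ℤ) ∣ (y : ℤ) ↔ y = 0 := by
        rw [Int.natCast_dvd_natCast]
        constructor
        · intro h
          exact Nat.eq_zero_of_dvd_of_lt h (mem_range.1 hy)
        · rintro rfl
          exact dvd_zero _
      unfold wt ind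
      by_cases h0 : y = 0
      · rw [if_pos h0]
        by_cases h4 : NR Q (x : ℤ)
        · rw [if_pos ⟨hd.2 h0, h4⟩, if_pos h4]
          ring
        · rw [if_neg fun h5 => h4 h5.2, if_neg h4]
          ring
      · rw [if_neg h0, if_neg fun h5 => h0 (hd.1 h5.1), sub_zero]
    rw [Finset.sum_congr rfl h3, Finset.sum_sub_distrib, Finset.sum_const, card_range,
      nsmul_eq_mul, mul_one, Finset.sum_ite_eq', if_pos (mem_range.2 hQ.pos)]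
  rw [Finset.sum_congr rfl fun x _ => h1 x, Finset.sum_sub_distrib, Finset.sum_const, card_range,
    nsmul_eq_mul, ← Finset.mul_sum, sum_ind hQ h2, sq]

/-- **Few pairs with few primes of the type.** -/
theorem few1 {𝒬 : Finset ℕ} (hQ : Pr8 𝒬) {u : ℝ} (hu : 0 < u) (hu1 : u ≤ 1) (s : ℕ) {X : ℕ}
    (hX : ∏ Q ∈ 𝒬, Q ≤ X) :
    u ^ s * (((Bx X).filter fun p => (SE 𝒬 p.1 p.2).card < s).card : ℝ) ≤
      8 * (X : ℝ) ^ 5 * ∏ Q ∈ 𝒬, (1 - (1 - u) * (((Q : ℝ) - 1) / (2 * (Q : ℝ) ^ 2))) := by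
  obtain ⟨N, hN⟩ : ∃ N : ℕ, N = ∏ Q ∈ 𝒬, Q := ⟨_, rfl⟩
  have hN0 : 0 < N := by
    rw [hN]
    exact Finset.prod_pos fun Q hQ' => (hQ Q hQ').1.pos
  rw [← hN] at hX
  have hX1 : 1 ≤ X := hN0.trans_le hX
  have hX2 : N ≤ X ^ 2 := hX.trans (Nat.le_self_pow two_ne_zero X)
  have hX3 : N ≤ X ^ 3 := hX.trans (Nat.le_self_pow three_ne_zero X)
  have hN1 : (0 : ℝ) < N := by exact_mod_cast hN0
  -- the sum of the weights
  have h1 : u ^ s * (((Bx X).filter fun p => (SE 𝒬 p.1 p.2).card < s).card : ℝ) ≤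
      ∑ p ∈ Bx X, ∏ Q ∈ 𝒬, wt u Q p.1 p.2 := by
    have h2 : ∑ p ∈ (Bx X).filter (fun p => (SE 𝒬 p.1 p.2).card < s), u ^ s ≤
        ∑ p ∈ (Bx X).filter (fun p => (SE 𝒬 p.1 p.2).card < s), ∏ Q ∈ 𝒬, wt u Q p.1 p.2 := by
      refine Finset.sum_le_sum fun p hp => ?_
      rw [prod_wt]
      exact pow_le_pow_of_le_one hu.le hu1 (Finset.mem_filter.1 hp).2.le
    rw [Finset.sum_const, nsmul_eq_mul, mul_comm] at h2
    refine h2.trans (Finset.sum_le_sum_of_subset_of_nonneg (Finset.filter_subset _ _) fun p _ _ => ?_)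
    exact Finset.prod_nonneg fun Q _ => wt_nonneg hu.le Q _ _
  refine h1.trans ?_
  unfold Bx
  rw [Finset.sum_product]
  have hnn : ∀ x y : ℤ, 0 ≤ ∏ Q ∈ 𝒬, wt u Q x y := fun x y =>
    Finset.prod_nonneg fun Q _ => wt_nonneg hu.le Q _ _
  have hper2 : ∀ x : ℤ, Per N (fun y => ∏ Q ∈ 𝒬, wt u Q x y) := by
    intro x
    rw [hN]
    exact per_prod (g := fun Q y => wt u Q x y) fun Q _ => wt_per2 u Q x
  have hper1 : ∀ y : ℤ, Per N (fun x => ∏ Q ∈ 𝒬, wt u Q x y) := by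
    intro y
    rw [hN]
    exact per_prod (g := fun Q x => wt u Q x y) fun Q _ => wt_per1 u Q y
  have h3 : ∀ x : ℤ, ∑ y ∈ Icc (-((X ^ 3 : ℕ) : ℤ)) ((X ^ 3 : ℕ) : ℤ), ∏ Q ∈ 𝒬, wt u Q x y ≤
      (4 * ((X ^ 3 : ℕ) : ℝ) / N) * ∑ y ∈ range N, ∏ Q ∈ 𝒬, wt u Q x y := fun x =>
    sum_Icc_le hN0 hX3 (hper2 x) (hnn x)
  have h4 : ∑ x ∈ Ioc (0 : ℤ) ((X ^ 2 : ℕ) : ℤ), ∑ y ∈ range N, ∏ Q ∈ 𝒬, wt u Q x y ≤
      (2 * ((X ^ 2 : ℕ) : ℝ) / N) * ∑ x ∈ range N, ∑ y ∈ range N, ∏ Q ∈ 𝒬, wt u Q x y := by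
    refine sum_Ioc_le (F := fun x => ∑ y ∈ range N, ∏ Q ∈ 𝒬, wt u Q x y) hN0 hX2 ?_ ?_
    · intro x x' hxx
      exact Finset.sum_congr rfl fun y _ => hper1 y x x' hxx
    · exact fun x => Finset.sum_nonneg fun y _ => hnn x y
  have h5 : ∑ x ∈ range N, ∑ y ∈ range N, ∏ Q ∈ 𝒬, wt u Q x y =
      ∏ Q ∈ 𝒬, ((Q : ℝ) ^ 2 - (1 - u) * (((Q : ℝ) - 1) / 2)) := by
    rw [hN, sum_prod2 (fun Q hQ' => (hQ Q hQ').1) (g := fun Q x y => wt u Q x y)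
      (fun Q _ y => wt_per1 u Q y) (fun Q _ x => wt_per2 u Q x)]
    exact Finset.prod_congr rfl fun Q hQ' => sum_wt u (hQ Q hQ').1 (hQ.ne_two hQ')
  calc ∑ x ∈ Ioc (0 : ℤ) ((X ^ 2 : ℕ) : ℤ), ∑ y ∈ Icc (-((X ^ 3 : ℕ) : ℤ)) ((X ^ 3 : ℕ) : ℤ),
        ∏ Q ∈ 𝒬, wt u Q (x, y).1 (x, y).2
      ≤ ∑ x ∈ Ioc (0 : ℤ) ((X ^ 2 : ℕ) : ℤ), (4 * ((X ^ 3 : ℕ) : ℝ) / N) *
          ∑ y ∈ range N, ∏ Q ∈ 𝒬, wt u Q x y := Finset.sum_le_sum fun x _ => h3 x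
    _ = (4 * ((X ^ 3 : ℕ) : ℝ) / N) * ∑ x ∈ Ioc (0 : ℤ) ((X ^ 2 : ℕ) : ℤ),
          ∑ y ∈ range N, ∏ Q ∈ 𝒬, wt u Q x y := by rw [Finset.mul_sum]
    _ ≤ (4 * ((X ^ 3 : ℕ) : ℝ) / N) * ((2 * ((X ^ 2 : ℕ) : ℝ) / N) *
          ∑ x ∈ range N, ∑ y ∈ range N, ∏ Q ∈ 𝒬, wt u Q x y) :=
        mul_le_mul_of_nonneg_left h4 (by positivity)
    _ = 8 * (X : ℝ) ^ 5 * ∏ Q ∈ 𝒬, (1 - (1 - u) * (((Q : ℝ) - 1) / (2 * (Q : ℝ) ^ 2))) := by
        rw [h5]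
        have e1 : ∏ Q ∈ 𝒬, (1 - (1 - u) * (((Q : ℝ) - 1) / (2 * (Q : ℝ) ^ 2))) =
            (∏ Q ∈ 𝒬, ((Q : ℝ) ^ 2 - (1 - u) * (((Q : ℝ) - 1) / 2))) / (N : ℝ) ^ 2 := by
          rw [hN, Nat.cast_prod, ← Finset.prod_pow, ← Finset.prod_div_distrib]
          refine Finset.prod_congr rfl fun Q hQ' => ?_
          have : (0 : ℝ) < Q := by exact_mod_cast (hQ Q hQ').1.pos
          field_simp
        rw [e1]
        push_cast
        field_simp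
        ring

/-- **Few pairs with a large product of the primes of the type.** -/
theorem few3 {𝒬 : Finset ℕ} (hQ : Pr8 𝒬) {D : ℕ} (hD : 2 ≤ D) {X : ℕ}
    (hX : ∀ Q ∈ 𝒬, Q ≤ X) (hX1 : 1 ≤ X) :
    Real.log D * (((Bx X).filter fun p => D < ∏ Q ∈ SE 𝒬 p.1 p.2, Q).card : ℝ) ≤
      4 * (X : ℝ) ^ 5 * ∑ Q ∈ 𝒬, Real.log Q / Q := by
  have hlog : 0 < Real.log D := Real.log_pos (by exact_mod_cast hD)
  have hlQ : ∀ Q ∈ 𝒬, 0 ≤ Real.log Q := fun Q hQ' =>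
    Real.log_nonneg (by exact_mod_cast (hQ Q hQ').1.one_lt.le)
  have h1 : Real.log D * (((Bx X).filter fun p => D < ∏ Q ∈ SE 𝒬 p.1 p.2, Q).card : ℝ) ≤
      ∑ p ∈ Bx X, ∑ Q ∈ 𝒬, if (Q : ℤ) ∣ p.2 then Real.log Q else 0 := by
    have h2 : ∑ p ∈ (Bx X).filter (fun p => D < ∏ Q ∈ SE 𝒬 p.1 p.2, Q), Real.log D ≤
        ∑ p ∈ (Bx X).filter (fun p => D < ∏ Q ∈ SE 𝒬 p.1 p.2, Q),
          ∑ Q ∈ 𝒬, if (Q : ℤ) ∣ p.2 then Real.log Q else 0 := by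
      refine Finset.sum_le_sum fun p hp => ?_
      have h3 := (Finset.mem_filter.1 hp).2
      calc Real.log D ≤ Real.log ((∏ Q ∈ SE 𝒬 p.1 p.2, Q : ℕ) : ℝ) :=
            Real.log_le_log (by positivity) (by exact_mod_cast h3.le)
        _ = ∑ Q ∈ SE 𝒬 p.1 p.2, Real.log Q := by
            rw [Nat.cast_prod, Real.log_prod]
            intro Q hQ'
            exact_mod_cast (hQ Q (Finset.mem_filter.1 hQ').1).1.ne_zero
        _ ≤ ∑ Q ∈ 𝒬.filter (fun Q : ℕ => (Q : ℤ) ∣ p.2), Real.log Q := by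
            refine Finset.sum_le_sum_of_subset_of_nonneg ?_ fun Q hQ' _ =>
              hlQ Q (Finset.mem_filter.1 hQ').1
            intro Q hQ'
            unfold SE at hQ'
            rw [Finset.mem_filter] at hQ' ⊢
            exact ⟨hQ'.1, hQ'.2.1⟩
        _ = _ := by rw [Finset.sum_filter]
    rw [Finset.sum_const, nsmul_eq_mul, mul_comm] at h2
    refine h2.trans (Finset.sum_le_sum_of_subset_of_nonneg (Finset.filter_subset _ _) fun p _ _ => ?_)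
    refine Finset.sum_nonneg fun Q hQ' => ?_
    split_ifs
    · exact hlQ Q hQ'
    · exact le_rfl
  refine h1.trans ?_
  rw [Finset.sum_comm, Finset.mul_sum]
  refine Finset.sum_le_sum fun Q hQ' => ?_
  have hQ0 : 0 < Q := (hQ Q hQ').1.pos
  have hQX : Q ≤ X ^ 3 := (hX Q hQ').trans (Nat.le_self_pow three_ne_zero X)
  unfold Bx
  rw [Finset.sum_product]
  have h4 : ∑ y ∈ Icc (-((X ^ 3 : ℕ) : ℤ)) ((X ^ 3 : ℕ) : ℤ),
      (if (Q : ℤ) ∣ y then Real.log Q else 0) ≤ (4 * ((X ^ 3 : ℕ) : ℝ) / Q) * Real.log Q := by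
    have h5 := sum_Icc_le (F := fun y : ℤ => if (Q : ℤ) ∣ y then Real.log Q else 0) hQ0 hQX (by
      intro x y h
      have h2 : (Q : ℤ) ∣ x ↔ (Q : ℤ) ∣ y := by
        constructor
        · intro h3
          have := dvd_sub h3 h
          simpa using this
        · intro h3
          have := dvd_add h h3
          simpa using this
      show (if (Q : ℤ) ∣ x then Real.log Q else 0) = if (Q : ℤ) ∣ y then Real.log Q else 0
      by_cases h3 : (Q : ℤ) ∣ x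
      · rw [if_pos h3, if_pos (h2.1 h3)]
      · rw [if_neg h3, if_neg fun h4 => h3 (h2.2 h4)]) (by
      intro x
      show 0 ≤ (if (Q : ℤ) ∣ x then Real.log Q else 0)
      split_ifs
      · exact hlQ Q hQ'
      · exact le_rfl)
    have h6 : ∑ y ∈ range Q, (if (Q : ℤ) ∣ (y : ℤ) then Real.log Q else 0) = Real.log Q := by
      have h7 : ∀ y ∈ range Q, (if (Q : ℤ) ∣ (y : ℤ) then Real.log Q else 0) =
          if y = 0 then Real.log Q else 0 := by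
        intro y hy
        have hd : (Q : ℤ) ∣ (y : ℤ) ↔ y = 0 := by
          rw [Int.natCast_dvd_natCast]
          constructor
          · intro h
            exact Nat.eq_zero_of_dvd_of_lt h (mem_range.1 hy)
          · rintro rfl
            exact dvd_zero _
        simp only [hd]
      rw [Finset.sum_congr rfl h7, Finset.sum_ite_eq', if_pos (mem_range.2 hQ0)]
    rw [h6] at h5
    exact h5
  show ∑ _x ∈ Ioc (0 : ℤ) ((X ^ 2 : ℕ) : ℤ), ∑ y ∈ Icc (-((X ^ 3 : ℕ) : ℤ)) ((X ^ 3 : ℕ) : ℤ),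
    (if (Q : ℤ) ∣ y then Real.log Q else 0) ≤ _
  rw [Finset.sum_const, Int.card_Ioc, nsmul_eq_mul]
  have e : (((X ^ 2 : ℕ) : ℤ) - 0).toNat = X ^ 2 := by
    rw [sub_zero, Int.toNat_natCast]
  rw [e]
  refine (mul_le_mul_of_nonneg_left h4 (Nat.cast_nonneg _)).trans (le_of_eq ?_)
  push_cast
  ring

end Pool.Agent.Helper29K
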