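import Pool.Agent.Helper29K.Fam
import Pool.Agent.Helper29K.Spl

/-!
# For almost all pairs there is a set of primes from a given set, for which the pair is not bad
-/

set_option autoImplicit false
set_option linter.all false

open Finset Filter
open scoped Classical

namespace Pool.Agent.Helper29K

open Pool.Agent.N922.PQ

/-- The sum of the reciprocals. -/
noncomputable def glam (𝒬 : Finset ℕ) : ℝ := ∑ Q ∈ 𝒬, (1 : ℝ) / Q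

theorem glam_nonneg (𝒬 : Finset ℕ) : 0 ≤ glam 𝒬 := Finset.sum_nonneg fun Q _ => by positivity

theorem gsum_sq_le {𝒬 : Finset ℕ} (h8 : Pr8 𝒬) : ∑ Q ∈ 𝒬, (1 : ℝ) / (Q : ℝ) ^ 2 ≤ 2 := by
  have h1 : ∑ Q ∈ 𝒬, (1 : ℝ) / (Q : ℝ) ^ 2 ≤ ∑ Q ∈ QY (𝒬.sup id), (1 : ℝ) / (Q : ℝ) ^ 2 := by
    refine Finset.sum_le_sum_of_subset_of_nonneg (fun Q hQ => ?_) fun Q _ _ => by positivity
    unfold QY
    rw [Finset.mem_filter, mem_Icc]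
    exact ⟨⟨(h8 Q hQ).1.one_lt.le, Finset.le_sup (f := id) hQ⟩, h8 Q hQ⟩
  exact h1.trans (sum_sq_le _)

/-- The first estimate. -/
theorem gest1 {𝒬 : Finset ℕ} (h8 : Pr8 𝒬) (X : ℕ) (hX : ∏ Q ∈ 𝒬, Q ≤ X) :
    (((Bx X).filter fun p => (SE 𝒬 p.1 p.2).card < ⌊2 / 5 * glam 𝒬⌋₊).card : ℝ) ≤
      16 * (X : ℝ) ^ 5 * Real.exp (-(1 / 250) * glam 𝒬) := by
  have h := few1 h8 (u := 4 / 5) (by norm_num) (by norm_num) ⌊2 / 5 * glam 𝒬⌋₊ hX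
  have hl := glam_nonneg 𝒬
  have hs : ((⌊2 / 5 * glam 𝒬⌋₊ : ℕ) : ℝ) ≤ 2 / 5 * glam 𝒬 := Nat.floor_le (by linarith)
  -- the product
  have h1 : ∏ Q ∈ 𝒬, (1 - (1 - (4 / 5 : ℝ)) * (((Q : ℝ) - 1) / (2 * (Q : ℝ) ^ 2))) ≤
      Real.exp (-(1 / 10) * glam 𝒬 + 1 / 5) := by
    have h2 : ∀ Q ∈ 𝒬, (1 - (1 - (4 / 5 : ℝ)) * (((Q : ℝ) - 1) / (2 * (Q : ℝ) ^ 2))) ≤
        Real.exp (-(1 / 10) * (1 / (Q : ℝ)) + 1 / 10 * (1 / (Q : ℝ) ^ 2)) := by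
      intro Q hQ
      have hQ0 : (0 : ℝ) < Q := by exact_mod_cast (h8 Q hQ).1.pos
      have h3 := Real.add_one_le_exp (-(1 / 10) * (1 / (Q : ℝ)) + 1 / 10 * (1 / (Q : ℝ) ^ 2))
      refine le_trans (le_of_eq ?_) h3
      field_simp
      ring
    have h4 : ∀ Q ∈ 𝒬, 0 ≤ (1 - (1 - (4 / 5 : ℝ)) * (((Q : ℝ) - 1) / (2 * (Q : ℝ) ^ 2))) := by
      intro Q hQ
      have hQ1 : (1 : ℝ) ≤ Q := by exact_mod_cast (h8 Q hQ).1.one_lt.le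
      have h5 : ((Q : ℝ) - 1) / (2 * (Q : ℝ) ^ 2) ≤ 1 := by
        rw [div_le_one (by positivity)]
        nlinarith
      linarith
    refine (Finset.prod_le_prod h4 h2).trans ?_
    rw [← Real.exp_sum, Real.exp_le_exp, Finset.sum_add_distrib, ← Finset.mul_sum,
      ← Finset.mul_sum]
    have h6 := gsum_sq_le h8
    unfold glam
    linarith
  -- the power
  have h5 : (4 / 5 : ℝ) ^ ⌊2 / 5 * glam 𝒬⌋₊ ≥ Real.exp (-(12 / 125) * glam 𝒬) := by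
    have h6 : Real.exp (-(6 / 25 : ℝ)) ≤ 4 / 5 := by
      have h7 := Real.quadratic_le_exp_of_nonneg (show (0 : ℝ) ≤ 6 / 25 by norm_num)
      rw [Real.exp_neg, inv_le_comm₀ (Real.exp_pos _) (by norm_num)]
      refine le_trans ?_ h7
      norm_num
    calc Real.exp (-(12 / 125) * glam 𝒬) ≤ Real.exp (-(6 / 25) * ((⌊2 / 5 * glam 𝒬⌋₊ : ℕ) : ℝ)) := by
          rw [Real.exp_le_exp]
          linarith
      _ = Real.exp (-(6 / 25 : ℝ)) ^ ⌊2 / 5 * glam 𝒬⌋₊ := by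
          rw [← Real.exp_nat_mul]
          congr 1
          ring
      _ ≤ (4 / 5 : ℝ) ^ ⌊2 / 5 * glam 𝒬⌋₊ := pow_le_pow_left₀ (Real.exp_pos _).le h6 _
  have h8 : Real.exp (-(12 / 125) * glam 𝒬) *
      (((Bx X).filter fun p => (SE 𝒬 p.1 p.2).card < ⌊2 / 5 * glam 𝒬⌋₊).card : ℝ) ≤
      8 * (X : ℝ) ^ 5 * Real.exp (-(1 / 10) * glam 𝒬 + 1 / 5) := by
    refine (mul_le_mul_of_nonneg_right h5 (Nat.cast_nonneg _)).trans (h.trans ?_)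
    exact mul_le_mul_of_nonneg_left h1 (by positivity)
  have h9 : Real.exp (1 / 5 : ℝ) ≤ 2 := by
    have h10 : (1 / 5 : ℝ) ≤ Real.log 2 := by
      have := Real.log_two_gt_d9
      linarith
    calc Real.exp (1 / 5 : ℝ) ≤ Real.exp (Real.log 2) := Real.exp_le_exp.2 h10
      _ = 2 := Real.exp_log (by norm_num)
  have h11 : 8 * (X : ℝ) ^ 5 * Real.exp (-(1 / 10) * glam 𝒬 + 1 / 5) ≤
      Real.exp (-(12 / 125) * glam 𝒬) * (16 * (X : ℝ) ^ 5 * Real.exp (-(1 / 250) * glam 𝒬)) := by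
    have e : -(1 / 10) * glam 𝒬 = -(12 / 125) * glam 𝒬 + -(1 / 250) * glam 𝒬 := by ring
    rw [Real.exp_add, e, Real.exp_add]
    have hpos : 0 ≤ (X : ℝ) ^ 5 * (Real.exp (-(12 / 125) * glam 𝒬) *
      Real.exp (-(1 / 250) * glam 𝒬)) := by positivity
    nlinarith [mul_le_mul_of_nonneg_left h9 hpos]
  exact le_of_mul_le_mul_left (h8.trans h11) (Real.exp_pos _)

/-- The second estimate. -/
theorem gest2 (κ : ℕ) : ∃ K : ℝ, 0 ≤ K ∧ ∀ 𝒬 : Finset ℕ, Pr8 𝒬 → ∀ᶠ X : ℕ in atTop,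
    (BB κ X 𝒬 ⌊2 / 5 * glam 𝒬⌋₊).Finite ∧
    ((BB κ X 𝒬 ⌊2 / 5 * glam 𝒬⌋₊).ncard : ℝ) ≤
      K * (X : ℝ) ^ 5 * Real.exp (-(1 / 250) * glam 𝒬) := by
  obtain ⟨K, hK0, hK⟩ := bad2 κ
  refine ⟨2 * K, by positivity, fun 𝒬 h8 => ?_⟩
  filter_upwards [hK 𝒬 h8 ⌊2 / 5 * glam 𝒬⌋₊] with X hX
  refine ⟨hX.1, ?_⟩
  have hl := glam_nonneg 𝒬
  have h1 : ∏ Q ∈ 𝒬, (1 + 1 / (4 * (Q : ℝ))) ≤ Real.exp (1 / 4 * glam 𝒬) := by
    have h2 : ∀ Q ∈ 𝒬, 1 + 1 / (4 * (Q : ℝ)) ≤ Real.exp (1 / 4 * (1 / (Q : ℝ))) := by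
      intro Q hQ
      have h3 := Real.add_one_le_exp (1 / 4 * (1 / (Q : ℝ)))
      refine le_trans (le_of_eq ?_) h3
      ring
    refine (Finset.prod_le_prod (fun Q _ => by positivity) h2).trans ?_
    rw [← Real.exp_sum, Real.exp_le_exp, ← Finset.mul_sum]
    exact le_rfl
  have h2 : Real.exp (277 / 1000 * glam 𝒬) ≤ 2 * (2 : ℝ) ^ ⌊2 / 5 * glam 𝒬⌋₊ := by
    have h3 := Nat.lt_floor_add_one (2 / 5 * glam 𝒬)
    have h4 := Real.log_two_gt_d9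
    have e : 2 * (2 : ℝ) ^ ⌊2 / 5 * glam 𝒬⌋₊ =
        Real.exp (Real.log 2 * (((⌊2 / 5 * glam 𝒬⌋₊ : ℕ) : ℝ) + 1)) := by
      have e2 : Real.log 2 * (((⌊2 / 5 * glam 𝒬⌋₊ : ℕ) : ℝ) + 1) =
          ((⌊2 / 5 * glam 𝒬⌋₊ + 1 : ℕ) : ℝ) * Real.log 2 := by
        push_cast
        ring
      rw [e2, Real.exp_nat_mul, Real.exp_log (by norm_num), pow_succ]
      ring
    rw [e, Real.exp_le_exp]
    have h5 : (0.6931471803 : ℝ) * (2 / 5 * glam 𝒬) ≤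
        Real.log 2 * (((⌊2 / 5 * glam 𝒬⌋₊ : ℕ) : ℝ) + 1) :=
      mul_le_mul h4.le h3.le (by linarith) (by linarith)
    refine le_trans ?_ h5
    nlinarith
  have h3 : (2 : ℝ) ^ ⌊2 / 5 * glam 𝒬⌋₊ * ((BB κ X 𝒬 ⌊2 / 5 * glam 𝒬⌋₊).ncard : ℝ) ≤
      K * (X : ℝ) ^ 5 * Real.exp (1 / 4 * glam 𝒬) :=
    hX.2.trans (mul_le_mul_of_nonneg_left h1 (by positivity))
  have h4 : Real.exp (277 / 1000 * glam 𝒬) *
      ((BB κ X 𝒬 ⌊2 / 5 * glam 𝒬⌋₊).ncard : ℝ) ≤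
      2 * (K * (X : ℝ) ^ 5 * Real.exp (1 / 4 * glam 𝒬)) := by
    refine (mul_le_mul_of_nonneg_right h2 (Nat.cast_nonneg _)).trans ?_
    rw [mul_assoc]
    exact mul_le_mul_of_nonneg_left h3 (by norm_num)
  have h5 : 2 * (K * (X : ℝ) ^ 5 * Real.exp (1 / 4 * glam 𝒬)) ≤
      Real.exp (277 / 1000 * glam 𝒬) * (2 * K * (X : ℝ) ^ 5 * Real.exp (-(1 / 250) * glam 𝒬)) := by
    have h6 : Real.exp (1 / 4 * glam 𝒬) ≤ Real.exp (277 / 1000 * glam 𝒬) *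
        Real.exp (-(1 / 250) * glam 𝒬) := by
      rw [← Real.exp_add, Real.exp_le_exp]
      nlinarith
    calc 2 * (K * (X : ℝ) ^ 5 * Real.exp (1 / 4 * glam 𝒬))
        ≤ 2 * (K * (X : ℝ) ^ 5 * (Real.exp (277 / 1000 * glam 𝒬) *
          Real.exp (-(1 / 250) * glam 𝒬))) := by gcongr
      _ = _ := by ring
  exact le_of_mul_le_mul_left (h4.trans h5) (Real.exp_pos _)

/-- There is a set of primes from `P`, with product at most `D`, for which the pair is not bad. -/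
def GoodAtP (κ D X : ℕ) (P : Set ℕ) (p : ℤ × ℤ) : Prop :=
  ∃ S : Finset ℕ, Pr8 S ∧ (∀ Q ∈ S, Q ∈ P) ∧ (∀ Q ∈ S, (Q : ℤ) ∣ p.2 ∧ NR Q p.1) ∧
    ∏ Q ∈ S, Q ≤ D ∧ ¬ LBad κ X (zS S) (fun _ => p.1) p.1 p.2

/-- **For almost all pairs there is a set of primes from `P` for which the pair is not bad.** -/
theorem gmc (κ : ℕ) {P : Set ℕ} (hP : ∀ Q ∈ P, Q.Prime ∧ Q % 8 = 1)
    (hdiv : ¬ Summable (fun n : ℕ => P.indicator (fun n : ℕ => (1 : ℝ) / n) n)) {ε : ℝ}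
    (hε : 0 < ε) : ∃ D : ℕ, ∀ᶠ X : ℕ in atTop,
    {p : ℤ × ℤ | p ∈ Bx X ∧ ¬ GoodAtP κ D X P p}.Finite ∧
    ({p : ℤ × ℤ | p ∈ Bx X ∧ ¬ GoodAtP κ D X P p}.ncard : ℝ) ≤ ε * (X : ℝ) ^ 5 := by
  obtain ⟨K, hK0, hK⟩ := gest2 κ
  obtain ⟨𝒬, h𝒬, hL⟩ := exists_large hdiv (250 * Real.log ((16 + K) / ε))
  have h8 : Pr8 𝒬 := fun Q hQ => hP Q (h𝒬 Q hQ)
  have hexp : Real.exp (-(1 / 250) * glam 𝒬) ≤ ε / (16 + K) := by
    have h1 : -(1 / 250) * glam 𝒬 ≤ Real.log (ε / (16 + K)) := by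
      have e : Real.log (ε / (16 + K)) = -Real.log ((16 + K) / ε) := by
        rw [← Real.log_inv, inv_div]
      rw [e]
      have h2 : 250 * Real.log ((16 + K) / ε) ≤ glam 𝒬 := hL
      linarith
    calc Real.exp (-(1 / 250) * glam 𝒬) ≤ Real.exp (Real.log (ε / (16 + K))) :=
          Real.exp_le_exp.2 h1
      _ = ε / (16 + K) := Real.exp_log (by positivity)
  refine ⟨∏ Q ∈ 𝒬, Q, ?_⟩
  have hev1 : ∀ᶠ X : ℕ in atTop, (∏ Q ∈ 𝒬, Q) ≤ X := eventually_ge_atTop _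
  filter_upwards [hK 𝒬 h8, hev1] with X hX h1
  have e1 := gest1 h8 X h1
  have e2 := hX.2
  set B1 := (Bx X).filter fun p => (SE 𝒬 p.1 p.2).card < ⌊2 / 5 * glam 𝒬⌋₊ with hB1
  set B2 := BB κ X 𝒬 ⌊2 / 5 * glam 𝒬⌋₊ with hB2
  have hsub : {p : ℤ × ℤ | p ∈ Bx X ∧ ¬ GoodAtP κ (∏ Q ∈ 𝒬, Q) X P p} ⊆
      (B1 : Set (ℤ × ℤ)) ∪ B2 := by
    rintro p ⟨hp, hng⟩
    by_contra hn
    rw [Set.mem_union, not_or] at hn
    obtain ⟨n1, n2⟩ := hn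
    apply hng
    have hS : SE 𝒬 p.1 p.2 ⊆ 𝒬 := Finset.filter_subset _ _
    refine ⟨SE 𝒬 p.1 p.2, h8.mono hS, fun Q hQ => h𝒬 Q (hS hQ),
      fun Q hQ => (Finset.mem_filter.1 hQ).2, ?_, fun hb => ?_⟩
    · exact Finset.prod_le_prod_of_subset_of_one_le' hS fun Q hQ _ => (h8 Q hQ).1.one_lt.le
    · apply n2
      refine ⟨?_, hb⟩
      by_contra h
      exact n1 (Finset.mem_coe.2 (Finset.mem_filter.2 ⟨hp, not_le.1 h⟩))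
  have hfin : ((B1 : Set (ℤ × ℤ)) ∪ B2).Finite := (Finset.finite_toSet _).union hX.1
  refine ⟨hfin.subset hsub, ?_⟩
  have hcard : {p : ℤ × ℤ | p ∈ Bx X ∧ ¬ GoodAtP κ (∏ Q ∈ 𝒬, Q) X P p}.ncard ≤
      B1.card + B2.ncard := by
    calc _ ≤ ((B1 : Set (ℤ × ℤ)) ∪ B2).ncard := Set.ncard_le_ncard hsub hfin
      _ ≤ (B1 : Set (ℤ × ℤ)).ncard + B2.ncard := Set.ncard_union_le _ _
      _ = _ := by rw [Set.ncard_coe_finset]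
  have hcard' : ({p : ℤ × ℤ | p ∈ Bx X ∧ ¬ GoodAtP κ (∏ Q ∈ 𝒬, Q) X P p}.ncard : ℝ) ≤
      B1.card + B2.ncard := by exact_mod_cast hcard
  have hX5 : (0 : ℝ) ≤ (X : ℝ) ^ 5 := by positivity
  calc ({p : ℤ × ℤ | p ∈ Bx X ∧ ¬ GoodAtP κ (∏ Q ∈ 𝒬, Q) X P p}.ncard : ℝ)
      ≤ B1.card + B2.ncard := hcard'
    _ ≤ 16 * (X : ℝ) ^ 5 * (ε / (16 + K)) + K * (X : ℝ) ^ 5 * (ε / (16 + K)) := by
        refine add_le_add (e1.trans ?_) (e2.trans ?_)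
        · exact mul_le_mul_of_nonneg_left hexp (by positivity)
        · exact mul_le_mul_of_nonneg_left hexp (by positivity)
    _ = ε * (X : ℝ) ^ 5 := by
        field_simp

/-- The twist by a small product of primes. -/
theorem gtwist {κ D X : ℕ} {P : Set ℕ} (hLB : LBk κ) {q : ℤ × ℤ} (hF : InFamily q)
    (hq : q ∈ Bx X) (hG : GoodAtP κ D X P q) : ∃ J : Finset ℕ, Pr8 J ∧ (∀ Q ∈ J, Q ∈ P) ∧
      (∀ Q ∈ J, (Q : ℤ) ∣ q.2 ∧ NR Q q.1) ∧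
      ∏ Q ∈ J, Q ≤ D ∧
      Pool.Agent.H30GR.GSelR (q.1 * ((∏ Q ∈ J, Q : ℕ) : ℤ) ^ 2) (q.2 * ((∏ Q ∈ J, Q : ℕ) : ℤ) ^ 3) ∧
      Pool.Agent.H30GS.GSelS (q.1 * ((∏ Q ∈ J, Q : ℕ) : ℤ) ^ 2)
        (q.2 * ((∏ Q ∈ J, Q : ℕ) : ℤ) ^ 3) := by
  obtain ⟨S, hS8, hSP, hS, hD, hnb⟩ := hG
  obtain ⟨J', hJ', h1, h2⟩ := Pool.Agent.H30GS.both parts2 Pool.Agent.N849.PQ.int hLB
    (goodS_of hS8 fun Q hQ => (hS Q hQ).2) (fam_of hF hq fun Q hQ => (hS Q hQ).1)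
    hF.a_four hF.b_four hnb (goodT_of hF)
  have hJ : J' = zS (S.filter fun Q : ℕ => (Q : ℤ) ∈ J') := by
    ext Q
    rw [mem_zS]
    constructor
    · intro h
      obtain ⟨p, hp, rfl⟩ := mem_zS.1 (hJ' h)
      exact ⟨p, mem_filter.2 ⟨hp, h⟩, rfl⟩
    · rintro ⟨p, hp, rfl⟩
      exact (mem_filter.1 hp).2
  obtain ⟨J, hJd⟩ : ∃ J : Finset ℕ, J = S.filter fun Q : ℕ => (Q : ℤ) ∈ J' := ⟨_, rfl⟩
  rw [← hJd] at hJ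
  have hJS : J ⊆ S := by
    rw [hJd]
    exact filter_subset _ _
  rw [hJ, prod_zS] at h1 h2
  refine ⟨J, hS8.mono hJS, fun Q hQ => hSP Q (hJS hQ), fun Q hQ => hS Q (hJS hQ),
    le_trans ?_ hD, h1, h2⟩
  refine Finset.prod_le_prod_of_subset_of_one_le' hJS fun Q hQ _ => (hS8 Q hQ).1.one_lt.le

end Pool.Agent.Helper29K
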