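import Mathlib

/-!
# Sums of products of periodic functions over a period
-/

set_option autoImplicit false
set_option linter.all false

open Finset

namespace Pool.Agent.Helper29K

/-- `g` is periodic with period `n`. -/
def Per (n : ℕ) (g : ℤ → ℝ) : Prop := ∀ x y : ℤ, (n : ℤ) ∣ x - y → g x = g y

theorem Per.mod {n : ℕ} {g : ℤ → ℝ} (h : Per n g) (x : ℕ) : g ((x % n : ℕ) : ℤ) = g x := by
  apply h
  rw [Int.natCast_mod]
  exact Int.dvd_sub_self_of_emod_eq rfl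

theorem Per.mul_of_dvd {n m : ℕ} {g : ℤ → ℝ} (h : Per n g) (hd : n ∣ m) : Per m g := by
  intro x y hxy
  exact h x y ((Int.natCast_dvd_natCast.2 hd).trans hxy)

/-- Two coprime periods. -/
theorem sum_mul {m n : ℕ} (hmn : m.Coprime n) (hm : 0 < m) (hn : 0 < n) {g h : ℤ → ℝ}
    (hg : Per m g) (hh : Per n h) :
    ∑ x ∈ range (m * n), g x * h x = (∑ x ∈ range m, g x) * ∑ x ∈ range n, h x := by
  rw [Finset.sum_mul_sum, ← Finset.sum_product']
  refine Finset.sum_nbij' (fun x => (x % m, x % n))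
    (fun p => (Nat.chineseRemainder hmn p.1 p.2 : ℕ)) ?_ ?_ ?_ ?_ ?_
  · intro x _
    rw [mem_product, mem_range, mem_range]
    exact ⟨Nat.mod_lt _ hm, Nat.mod_lt _ hn⟩
  · intro p _
    rw [mem_range]
    exact Nat.chineseRemainder_lt_mul hmn p.1 p.2 hm.ne' hn.ne'
  · intro x hx
    have hlt := mem_range.1 hx
    obtain ⟨c1, c2⟩ := (Nat.chineseRemainder hmn (x % m) (x % n)).2
    have h1 : (Nat.chineseRemainder hmn (x % m) (x % n) : ℕ) ≡ x [MOD m * n] := by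
      rw [← Nat.modEq_and_modEq_iff_modEq_mul hmn]
      exact ⟨c1.trans (Nat.mod_modEq _ _), c2.trans (Nat.mod_modEq _ _)⟩
    exact Nat.ModEq.eq_of_lt_of_lt h1
      (Nat.chineseRemainder_lt_mul hmn _ _ hm.ne' hn.ne') hlt
  · intro p hp
    rw [mem_product, mem_range, mem_range] at hp
    obtain ⟨c1, c2⟩ := (Nat.chineseRemainder hmn p.1 p.2).2
    refine Prod.ext ?_ ?_
    · show (Nat.chineseRemainder hmn p.1 p.2 : ℕ) % m = p.1
      rw [c1]
      exact Nat.mod_eq_of_lt hp.1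
    · show (Nat.chineseRemainder hmn p.1 p.2 : ℕ) % n = p.2
      rw [c2]
      exact Nat.mod_eq_of_lt hp.2
  · intro x _
    show g x * h x = g ((x % m : ℕ) : ℤ) * h ((x % n : ℕ) : ℤ)
    rw [hg.mod, hh.mod]

theorem per_prod {S : Finset ℕ} {g : ℕ → ℤ → ℝ} (hg : ∀ Q ∈ S, Per Q (g Q)) :
    Per (∏ Q ∈ S, Q) (fun x => ∏ Q ∈ S, g Q x) := by
  intro x y hxy
  refine Finset.prod_congr rfl fun Q hQ => hg Q hQ x y ?_
  exact (Int.natCast_dvd_natCast.2 (Finset.dvd_prod_of_mem (fun Q : ℕ => Q) hQ)).trans hxy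

/-- Several coprime periods. -/
theorem sum_prod {S : Finset ℕ} (hS : ∀ Q ∈ S, Q.Prime) {g : ℕ → ℤ → ℝ}
    (hg : ∀ Q ∈ S, Per Q (g Q)) :
    ∑ x ∈ range (∏ Q ∈ S, Q), ∏ Q ∈ S, g Q x = ∏ Q ∈ S, ∑ x ∈ range Q, g Q x := by
  induction S using Finset.induction_on with
  | empty => simp
  | insert P S hP ih =>
    have hS' : ∀ Q ∈ S, Q.Prime := fun Q hQ => hS Q (mem_insert_of_mem hQ)
    have hg' : ∀ Q ∈ S, Per Q (g Q) := fun Q hQ => hg Q (mem_insert_of_mem hQ)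
    have hPp := hS P (mem_insert_self _ _)
    rw [Finset.prod_insert hP, Finset.prod_insert hP, ← ih hS' hg']
    simp only [Finset.prod_insert hP]
    refine sum_mul ?_ hPp.pos (Finset.prod_pos fun Q hQ => (hS' Q hQ).pos)
      (hg P (mem_insert_self _ _)) (per_prod hg')
    refine Nat.Coprime.prod_right fun Q hQ => ?_
    exact (Nat.coprime_primes hPp (hS' Q hQ)).2 fun h => hP (h ▸ hQ)

/-- The same for two variables. -/
theorem sum_prod2 {S : Finset ℕ} (hS : ∀ Q ∈ S, Q.Prime) {g : ℕ → ℤ → ℤ → ℝ}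
    (h1 : ∀ Q ∈ S, ∀ y, Per Q (fun x => g Q x y)) (h2 : ∀ Q ∈ S, ∀ x, Per Q (fun y => g Q x y)) :
    ∑ x ∈ range (∏ Q ∈ S, Q), ∑ y ∈ range (∏ Q ∈ S, Q), ∏ Q ∈ S, g Q x y =
      ∏ Q ∈ S, ∑ x ∈ range Q, ∑ y ∈ range Q, g Q x y := by
  have e : ∀ x : ℕ, ∑ y ∈ range (∏ Q ∈ S, Q), ∏ Q ∈ S, g Q x y =
      ∏ Q ∈ S, ∑ y ∈ range Q, g Q x y := by
    intro x
    exact sum_prod hS (g := fun Q y => g Q x y) fun Q hQ => h2 Q hQ x
  simp only [e]
  refine sum_prod hS (g := fun Q x => ∑ y ∈ range Q, g Q x y) fun Q hQ => ?_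
  intro x x' hxx
  exact Finset.sum_congr rfl fun y _ => h1 Q hQ y x x' hxx

/-- The sum of a nonnegative periodic function over a set covered by `k` periods. -/
theorem sum_le_blocks {N k : ℕ} (hN : 0 < N) {F : ℤ → ℝ} (hF : Per N F) (h0 : ∀ x, 0 ≤ F x)
    {s : Finset ℤ} {J : Finset ℤ} (hJ : J.card ≤ k) (hs : ∀ x ∈ s, x / N ∈ J) :
    ∑ x ∈ s, F x ≤ k * ∑ x ∈ range N, F x := by
  have hN' : (0 : ℤ) < N := by exact_mod_cast hN
  have hnn : 0 ≤ ∑ x ∈ range N, F x := Finset.sum_nonneg fun x _ => h0 _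
  have h1 : ∑ x ∈ s, F x ≤ ∑ p ∈ J ×ˢ range N, F (p.2 : ℤ) := by
    have hmod : ∀ x : ℤ, ((x % N).toNat : ℤ) = x % N := fun x =>
      Int.toNat_of_nonneg (Int.emod_nonneg _ hN'.ne')
    calc ∑ x ∈ s, F x = ∑ x ∈ s, (fun p : ℤ × ℕ => F (p.2 : ℤ)) (x / N, (x % N).toNat) := by
          refine Finset.sum_congr rfl fun x _ => ?_
          show F x = F (((x % N).toNat : ℕ) : ℤ)
          rw [hmod]
          exact hF _ _ (Int.dvd_self_sub_of_emod_eq rfl)
      _ = ∑ p ∈ s.image (fun x : ℤ => (x / N, (x % N).toNat)), F (p.2 : ℤ) := by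
          rw [Finset.sum_image]
          intro x _ y _ hxy
          rw [Prod.mk.injEq] at hxy
          have h3 : x % N = y % N := by rw [← hmod x, ← hmod y, hxy.2]
          rw [← Int.emod_add_mul_ediv x N, ← Int.emod_add_mul_ediv y N, h3, hxy.1]
      _ ≤ ∑ p ∈ J ×ˢ range N, F (p.2 : ℤ) := by
          refine Finset.sum_le_sum_of_subset_of_nonneg ?_ fun p _ _ => h0 _
          intro p hp
          obtain ⟨x, hx, rfl⟩ := mem_image.1 hp
          rw [mem_product, mem_range]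
          refine ⟨hs x hx, ?_⟩
          have := Int.emod_lt_of_pos x hN'
          show (x % N).toNat < N
          omega
  refine h1.trans ?_
  rw [Finset.sum_product]
  show ∑ _x ∈ J, ∑ y ∈ range N, F (y : ℤ) ≤ _
  rw [Finset.sum_const, nsmul_eq_mul]
  exact mul_le_mul_of_nonneg_right (by exact_mod_cast hJ) hnn

end Pool.Agent.Helper29K
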