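import Pool.Agent.Helper29K.Mult

/-!
# The number of the residue classes `x` for which `-x` is not a square
-/

set_option autoImplicit false
set_option linter.all false

open Finset
open scoped Classical

namespace Pool.Agent.Helper29K

/-- `- x` is not a square modulo `Q`. -/
def NR (Q : ℕ) (x : ℤ) : Prop := ∀ z : ℤ, ¬ (Q : ℤ) ∣ z ^ 2 + x

theorem nr_congr {Q : ℕ} {x y : ℤ} (h : (Q : ℤ) ∣ x - y) : NR Q x ↔ NR Q y := by
  constructor
  · intro h1 z hz
    apply h1 z
    have := dvd_add hz h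
    have e : z ^ 2 + y + (x - y) = z ^ 2 + x := by ring
    rwa [e] at this
  · intro h1 z hz
    apply h1 z
    have := dvd_sub hz h
    have e : z ^ 2 + x - (x - y) = z ^ 2 + y := by ring
    rwa [e] at this

theorem nr_iff (Q : ℕ) (x : ℤ) : NR Q x ↔ ¬ IsSquare (-(x : ZMod Q)) := by
  constructor
  · rintro h ⟨r, hr⟩
    obtain ⟨z, rfl⟩ := ZMod.intCast_surjective r
    apply h z
    rw [← ZMod.intCast_zmod_eq_zero_iff_dvd]
    push_cast
    linear_combination -hr
  · rintro h z hz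
    apply h
    rw [← ZMod.intCast_zmod_eq_zero_iff_dvd] at hz
    push_cast at hz
    exact ⟨(z : ZMod Q), by linear_combination -hz⟩

theorem sum_range_zmod {Q : ℕ} [NeZero Q] (f : ZMod Q → ℕ) :
    ∑ x ∈ range Q, f (x : ZMod Q) = ∑ x : ZMod Q, f x := by
  refine Finset.sum_nbij' (fun x => (x : ZMod Q)) (fun x => x.val) ?_ ?_ ?_ ?_ ?_
  · intro x _
    exact mem_univ _
  · intro x _
    exact mem_range.2 (ZMod.val_lt x)
  · intro x hx
    exact ZMod.val_cast_of_lt (mem_range.1 hx)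
  · intro x _
    exact ZMod.natCast_zmod_val x
  · intro x _
    rfl

theorem card_nr {Q : ℕ} (hQ : Q.Prime) (h2 : Q ≠ 2) :
    2 * ((range Q).filter fun x : ℕ => NR Q (x : ℤ)).card + 1 = Q := by
  haveI : Fact Q.Prime := ⟨hQ⟩
  haveI : NeZero Q := ⟨hQ.ne_zero⟩
  have e1 : ((range Q).filter fun x : ℕ => NR Q (x : ℤ)).card =
      ∑ x ∈ range Q, (fun y : ZMod Q => if ¬ IsSquare (-y) then (1 : ℕ) else 0) (x : ZMod Q) := by
    rw [Finset.card_filter]
    refine Finset.sum_congr rfl fun x _ => ?_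
    have := nr_iff Q (x : ℤ)
    rw [Int.cast_natCast] at this
    by_cases h : NR Q (x : ℤ)
    · rw [if_pos h]
      exact (if_pos (this.1 h)).symm
    · rw [if_neg h]
      exact (if_neg fun h' => h (this.2 h')).symm
  rw [e1, sum_range_zmod (fun y : ZMod Q => if ¬ IsSquare (-y) then (1 : ℕ) else 0)]
  have e2 : ∑ y : ZMod Q, (if ¬ IsSquare (-y) then (1 : ℕ) else 0) =
      ∑ y : ZMod Q, (if ¬ IsSquare y then (1 : ℕ) else 0) :=
    Fintype.sum_equiv (Equiv.neg _) _ _ fun y => rfl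
  have hc : ringChar (ZMod Q) ≠ 2 := by
    rwa [ZMod.ringChar_zmod_n]
  have h3 := quadraticChar_sum_zero hc
  have h4 : ∀ y : ZMod Q, (2 : ℤ) * (if ¬ IsSquare y then 1 else 0) + (if y = 0 then 1 else 0) +
      quadraticChar (ZMod Q) y = 1 := by
    intro y
    by_cases h0 : y = 0
    · subst h0
      simp
    · by_cases hs : IsSquare y
      · rw [(quadraticChar_one_iff_isSquare h0).2 hs]
        simp [h0, hs]
      · rw [quadraticChar_neg_one_iff_not_isSquare.2 hs]
        simp [h0, hs]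
  have h5 : ∑ y : ZMod Q, ((2 : ℤ) * (if ¬ IsSquare y then 1 else 0) + (if y = 0 then 1 else 0) +
      quadraticChar (ZMod Q) y) = Q := by
    rw [Finset.sum_congr rfl fun y _ => h4 y]
    simp
  rw [Finset.sum_add_distrib, Finset.sum_add_distrib, h3, ← Finset.mul_sum,
    Finset.sum_ite_eq' univ (0 : ZMod Q) (fun _ => (1 : ℤ)), if_pos (mem_univ _), add_zero] at h5
  rw [e2]
  have h6 : ((2 * (∑ y : ZMod Q, (if ¬ IsSquare y then (1 : ℕ) else 0)) + 1 : ℕ) : ℤ) = Q := by
    push_cast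
    exact h5
  exact_mod_cast h6

end Pool.Agent.Helper29K
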